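import Mathlib

/-!
# Definitions: unimodal maps, limit sets, odometers, persistent recurrence
-/

namespace Pool.Agent.Lib.MP_34a220_an

open Filter Topology Set Function

/-- `f` is a unimodal map of `[0,1]` with turning point `c`. -/
structure IsUnimodal (f : unitInterval → unitInterval) (c : unitInterval) : Prop where
  cont : Continuous f
  pos : 0 < c
  lt_one : c < 1
  mono : StrictMonoOn f (Iic c)
  anti : StrictAntiOn f (Ici c)

/-- the `ω`-limit set of `x`: the set of accumulation points of the forward orbit -/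
def omegaSet {X : Type} [TopologicalSpace X] (f : X → X) (x : X) : Set X :=
  {y | MapClusterPt y atTop fun n => f^[n] x}

/-- `c` is recurrent but not periodic -/
def InfRecurrent {X : Type} [TopologicalSpace X] (f : X → X) (c : X) : Prop :=
  c ∈ omegaSet f c ∧ ∀ n ≥ 1, f^[n] c ≠ c

/-- `c` is regularly recurrent -/
def RegRecurrent {X : Type} [TopologicalSpace X] (f : X → X) (c : X) : Prop :=
  ∀ U ∈ 𝓝 c, ∃ N ≥ 1, ∀ k, f^[k * N] c ∈ U

/-- `f` restricts to a homeomorphism of `K` onto itself -/
def IsHomeoOn {X : Type} [TopologicalSpace X] (f : X → X) (K : Set X) : Prop :=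
  ∃ h : K ≃ₜ K, ∀ x : K, (h x : X) = f x

/-- every orbit in `K` is dense in `K` -/
def OrbitsDenseIn {X : Type} [TopologicalSpace X] (f : X → X) (K : Set X) : Prop :=
  ∀ y ∈ K, K ⊆ closure (range fun n => f^[n] y)

/-- the inverse limit of the groups `ℤ / m i` -/
def Odo (m : ℕ → ℕ) : Type :=
  {x : ∀ i, ZMod (m i) // ∀ i, (ZMod.cast (x (i + 1)) : ZMod (m i)) = x i}

instance (m : ℕ → ℕ) : TopologicalSpace (Odo m) := instTopologicalSpaceSubtype

/-- `f` restricted to `K` is topologically conjugate to an odometer, the map `x ↦ x + 1` on the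
inverse limit of the `ℤ / m i` with `m i ∣ m (i + 1)`, `m i → ∞` -/
def ConjToOdometer {X : Type} [TopologicalSpace X] (f : X → X) (K : Set X) : Prop :=
  ∃ m : ℕ → ℕ, (∀ i, 0 < m i) ∧ (∀ i, m i ∣ m (i + 1)) ∧ Tendsto m atTop atTop ∧
    ∃ h : K ≃ₜ Odo m, ∀ x y : K, (y : X) = f x → ∀ i, (h y).1 i = (h x).1 i + 1

/-- `G 0, …, G s = U` is a pullback chain of `U` of length `s` -/
def PullbackChain (f : unitInterval → unitInterval) (U : Set unitInterval) (s : ℕ)
    (G : ℕ → Set unitInterval) : Prop :=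
  G s = U ∧ ∀ i < s, ∃ x ∈ f ⁻¹' G (i + 1), G i = connectedComponentIn (f ⁻¹' G (i + 1)) x

/-- `U` is a one-sided neighbourhood of `y`: an interval on one side of `y` (it may or may not
contain its end points) which is a neighbourhood of `y` within that side -/
def OneSidedNhd (U : Set unitInterval) (y : unitInterval) : Prop :=
  U.OrdConnected ∧ ((U ⊆ Ici y ∧ U ∈ 𝓝[>] y) ∨ (U ⊆ Iic y ∧ U ∈ 𝓝[<] y))

/-- persistent recurrence, as in the problem file -/
def PersRecurrent (f : unitInterval → unitInterval) (c : unitInterval) : Prop :=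
  c ∈ omegaSet f c ∧ ∀ y ∈ omegaSet f c, ∀ U, OneSidedNhd U y →
    {s : ℕ | ∃ G, PullbackChain f U s G ∧ (∀ i < s, c ∉ G i) ∧ c ∈ frontier (G 0)}.Finite

/-- strong persistent recurrence: the length of `f^s(G)` tends to `0` as `s → ∞`, uniformly over
all intervals `G` adjacent to `c` on which `f^s` is injective -/
def StrongPersRecurrent (f : unitInterval → unitInterval) (c : unitInterval) : Prop :=
  ∀ ε > 0, ∃ N : ℕ, ∀ s ≥ N, ∀ G : Set unitInterval, G.OrdConnected → c ∈ closure G →
    InjOn f^[s] G → ∀ x ∈ G, ∀ y ∈ G, dist (f^[s] x) (f^[s] y) < ε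

end Pool.Agent.Lib.MP_34a220_an
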