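import Pool.Agent.Lib.MP_34a220_an.TopDyn

section

/-!
# A tent map whose kneading sequence is the binary sequence `ee`
-/

namespace Pool.Agent.Lib.MP_34a220_an

open Filter Topology Set Function

/-- sign of a symbol -/
def sg : Bool → ℝ
  | true => -1
  | false => 1

/-- value of a symbol -/
def bv : Bool → ℝ
  | true => 1
  | false => 0

theorem sg_abs (b : Bool) : |sg b| = 1 := by cases b <;> simp [sg]

/-- the terms of the series for the point with itinerary `ee n, ee (n+1), …` -/
noncomputable def tm (l : ℝ) (n i : ℕ) : ℝ :=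
  (∏ k ∈ Finset.range i, sg (ee (n + k))) * (l⁻¹) ^ i * bv (ee (n + i))

/-- the point with itinerary `ee n, ee (n+1), …` -/
noncomputable def xs (l : ℝ) (n : ℕ) : ℝ := ∑' i, tm l n i

theorem tm_bound {l : ℝ} (hl : 19 / 10 ≤ l) (n i : ℕ) : ‖tm l n i‖ ≤ (10 / 19 : ℝ) ^ i := by
  have hl0 : 0 < l := by linarith
  unfold tm
  rw [norm_mul, norm_mul, Real.norm_eq_abs, Real.norm_eq_abs, Real.norm_eq_abs,
    Finset.abs_prod]
  have h1 : ∏ k ∈ Finset.range i, |sg (ee (n + k))| = 1 :=
    Finset.prod_eq_one fun k _ => sg_abs _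
  have h2 : |bv (ee (n + i))| ≤ 1 := by cases ee (n + i) <;> simp [bv]
  have h3 : |(l⁻¹) ^ i| ≤ (10 / 19 : ℝ) ^ i := by
    rw [abs_of_nonneg (by positivity)]
    apply pow_le_pow_left₀ (by positivity)
    rw [inv_eq_one_div, div_le_div_iff₀ hl0 (by norm_num)]
    linarith
  rw [h1, one_mul]
  calc |(l⁻¹) ^ i| * |bv (ee (n + i))| ≤ (10 / 19 : ℝ) ^ i * 1 :=
        mul_le_mul h3 h2 (abs_nonneg _) (by positivity)
    _ = _ := mul_one _

theorem geo_summable : Summable fun i : ℕ => (10 / 19 : ℝ) ^ i :=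
  summable_geometric_of_lt_one (by norm_num) (by norm_num)

theorem tm_summable {l : ℝ} (hl : 19 / 10 ≤ l) (n : ℕ) : Summable (tm l n) :=
  Summable.of_norm_bounded geo_summable (tm_bound hl n)

theorem xs_rec {l : ℝ} (hl : 19 / 10 ≤ l) (n : ℕ) :
    xs l n = bv (ee n) + sg (ee n) * l⁻¹ * xs l (n + 1) := by
  unfold xs
  rw [(tm_summable hl n).tsum_eq_zero_add, ← tsum_mul_left]
  congr 1
  · simp [tm]
  · refine tsum_congr fun i => ?_
    unfold tm
    rw [Finset.prod_range_succ', add_zero]
    have e1 : ∏ k ∈ Finset.range i, sg (ee (n + (k + 1))) =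
        ∏ k ∈ Finset.range i, sg (ee (n + 1 + k)) :=
      Finset.prod_congr rfl fun k _ => by rw [show n + (k + 1) = n + 1 + k by ring]
    rw [e1, show n + (i + 1) = n + 1 + i by ring]
    ring

theorem xs_bound {l : ℝ} (hl : 19 / 10 ≤ l) (n : ℕ) : |xs l n| ≤ 3 := by
  have h1 : ‖xs l n‖ ≤ ∑' i, (10 / 19 : ℝ) ^ i :=
    tsum_of_norm_bounded geo_summable.hasSum (tm_bound hl n)
  rw [tsum_geometric_of_lt_one (by norm_num) (by norm_num), Real.norm_eq_abs] at h1
  refine h1.trans ?_
  norm_num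

theorem xs_cont (n : ℕ) : ContinuousOn (fun l => xs l n) (Icc (19 / 10) 2) := by
  unfold xs
  refine continuousOn_tsum (fun i => ?_) geo_summable (fun i l hl => tm_bound hl.1 n i)
  unfold tm
  refine ContinuousOn.mul (ContinuousOn.mul continuousOn_const ?_) continuousOn_const
  refine ContinuousOn.pow (ContinuousOn.inv₀ continuousOn_id fun l hl => ?_) i
  have : (0 : ℝ) < l := by linarith [hl.1]
  exact this.ne'

theorem xs_mem {l : ℝ} (hl : 19 / 10 ≤ l) (n : ℕ) : 0 ≤ xs l n ∧ xs l n ≤ 1 := by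
  have hl0 : 0 < l := by linarith
  have hli : l⁻¹ < 1 := by
    rw [inv_lt_one₀ hl0]
    linarith
  have hli0 : 0 < l⁻¹ := by positivity
  have key : ∀ k : ℕ, ∀ n, -(3 * (l⁻¹) ^ k) ≤ xs l n ∧ xs l n ≤ 1 + 3 * (l⁻¹) ^ k := by
    intro k
    induction k with
    | zero =>
      intro n
      have := abs_le.1 (xs_bound hl n)
      rw [pow_zero]
      constructor <;> linarith [this.1, this.2]
    | succ k ih =>
      intro n
      obtain ⟨h1, h2⟩ := ih (n + 1)
      have h3 := xs_rec hl n
      have hpk : 0 < (l⁻¹) ^ k := by positivity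
      have e1 : (l⁻¹) ^ (k + 1) = l⁻¹ * (l⁻¹) ^ k := by rw [pow_succ]; ring
      have g1 : -(3 * (l⁻¹ * (l⁻¹) ^ k)) ≤ l⁻¹ * xs l (n + 1) := by nlinarith
      have g2 : l⁻¹ * xs l (n + 1) ≤ 1 + 3 * (l⁻¹ * (l⁻¹) ^ k) := by nlinarith
      rw [e1, h3]
      cases ee n
      · simp only [bv, sg]
        constructor <;> linarith
      · simp only [bv, sg]
        constructor <;> linarith
  have hlim : Tendsto (fun k : ℕ => 3 * (l⁻¹) ^ k) atTop (𝓝 0) := by
    have := (tendsto_pow_atTop_nhds_zero_of_lt_one hli0.le hli).const_mul 3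
    rwa [mul_zero] at this
  constructor
  · have h1 : Tendsto (fun k : ℕ => -(3 * (l⁻¹) ^ k)) atTop (𝓝 0) := by
      have := hlim.neg
      rwa [neg_zero] at this
    exact le_of_tendsto' h1 fun k => (key k n).1
  · have h1 : Tendsto (fun k : ℕ => 1 + 3 * (l⁻¹) ^ k) atTop (𝓝 1) := by
      have := hlim.const_add 1
      rwa [add_zero] at this
    exact ge_of_tendsto' h1 fun k => (key k n).2

/-- The data of a tent map of slope `l` and the orbit of its critical value. -/
structure KS (l : ℝ) (X : ℕ → ℝ) : Prop where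
  hl : 19 / 10 ≤ l
  hl2 : l ≤ 2
  h0 : X 0 = l / 2
  hrec : ∀ n, X n = bv (ee n) + sg (ee n) * l⁻¹ * X (n + 1)
  hmem : ∀ n, 0 ≤ X n ∧ X n ≤ 1

theorem ee_of3 : ee 3 = false := by rw [ee, NN_3]; rfl
theorem ee_of4 : ee 4 = false := by rw [ee, NN_4]; rfl
theorem ee_of5 : ee 5 = false := by rw [ee, NN_5]; rfl

theorem exists_KS : ∃ l X, KS l X := by
  have hcont : ContinuousOn (fun l => xs l 0 - l / 2) (Icc (19 / 10) 2) :=
    (xs_cont 0).sub (continuous_id.div_const 2).continuousOn
  have h1 : (0 : ℝ) ≤ xs (19 / 10) 0 - (19 / 10) / 2 := by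
    have hr := fun n => xs_rec (l := 19 / 10) le_rfl n
    have r0 := hr 0
    have r1 := hr 1
    have r2 := hr 2
    have r3 := hr 3
    have r4 := hr 4
    have r5 := hr 5
    rw [ee_of0] at r0
    rw [ee_of1] at r1
    rw [ee_of2] at r2
    rw [ee_of3] at r3
    rw [ee_of4] at r4
    rw [ee_of5] at r5
    norm_num [bv, sg] at r0 r1 r2 r3 r4 r5
    have := (xs_mem (l := 19 / 10) le_rfl 6).2
    linarith
  have h2 : xs 2 0 - 2 / 2 ≤ 0 := by
    have := (xs_mem (l := 2) (by norm_num) 0).2
    linarith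
  obtain ⟨l, hl, hl0⟩ : (0 : ℝ) ∈ (fun l => xs l 0 - l / 2) '' (Icc (19 / 10) 2) :=
    intermediate_value_Icc' (by norm_num) hcont ⟨h2, h1⟩
  simp only at hl0
  exact ⟨l, xs l, hl.1, hl.2, by linarith, xs_rec hl.1, xs_mem hl.1⟩

end Pool.Agent.Lib.MP_34a220_an
end

section

/-!
# The orbit of the turning point of the tent map
-/

namespace Pool.Agent.Lib.MP_34a220_an

open Filter Topology Set Function

/-- the tent map of slope `l` on the line -/
noncomputable def tent (l x : ℝ) : ℝ := l * min x (1 - x)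

theorem tent_left {l x : ℝ} (h : x ≤ 1 / 2) : tent l x = l * x := by
  unfold tent
  rw [min_eq_left (by linarith)]

theorem tent_right {l x : ℝ} (h : 1 / 2 ≤ x) : tent l x = l * (1 - x) := by
  unfold tent
  rw [min_eq_right (by linarith)]

theorem tent_half (l : ℝ) : tent l (1 / 2) = l / 2 := by
  rw [tent_left le_rfl]
  ring

theorem tent_cont (l : ℝ) : Continuous (tent l) := by
  unfold tent
  fun_prop

theorem tent_symm (l x : ℝ) : tent l (1 - x) = tent l x := by
  unfold tent
  rw [sub_sub_cancel, min_comm]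

namespace KS

variable {l : ℝ} {X : ℕ → ℝ} (K : KS l X)

include K

theorem lpos : 0 < l := by linarith [K.hl]

theorem linv_lt : l⁻¹ ≤ 10 / 19 := by
  rw [inv_eq_one_div, div_le_div_iff₀ K.lpos (by norm_num)]
  linarith [K.hl]

theorem linv_pos : 0 < l⁻¹ := inv_pos.2 K.lpos

theorem linv_le_one : l⁻¹ ≤ 1 := by linarith [K.linv_lt]

theorem rec_false {n : ℕ} (h : ee n = false) : X n = l⁻¹ * X (n + 1) := by
  have := K.hrec n
  rw [h] at this
  simpa [bv, sg] using this

theorem rec_true {n : ℕ} (h : ee n = true) : X n = 1 - l⁻¹ * X (n + 1) := by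
  have := K.hrec n
  rw [h] at this
  simp only [bv, sg] at this
  linarith

/-- difference of two points of the orbit with the same symbols -/
theorem diff {n m d : ℕ} (h : ∀ k < d, ee (n + k) = ee (m + k)) :
    X n - X m = (∏ k ∈ Finset.range d, sg (ee (m + k))) * (l⁻¹) ^ d * (X (n + d) - X (m + d)) := by
  induction d with
  | zero => simp
  | succ d ih =>
    rw [ih fun k hk => h k (by omega), Finset.prod_range_succ]
    have h1 := K.hrec (n + d)
    have h2 := K.hrec (m + d)
    rw [h d (by omega)] at h1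
    have : X (n + d) - X (m + d) = sg (ee (m + d)) * l⁻¹ * (X (n + (d + 1)) - X (m + (d + 1))) := by
      rw [h1, h2, add_assoc, add_assoc]
      ring
    rw [this, pow_succ]
    ring

theorem abs_diff {n m d : ℕ} (h : ∀ k < d, ee (n + k) = ee (m + k)) :
    |X n - X m| = (l⁻¹) ^ d * |X (n + d) - X (m + d)| := by
  rw [K.diff h, abs_mul, abs_mul, Finset.abs_prod, Finset.prod_eq_one fun k _ => sg_abs _,
    one_mul, abs_of_nonneg (pow_nonneg K.linv_pos.le d)]

theorem abs_diff_le {n m d : ℕ} (h : ∀ k < d, ee (n + k) = ee (m + k)) :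
    |X n - X m| ≤ (l⁻¹) ^ d := by
  rw [K.abs_diff h]
  have h1 : |X (n + d) - X (m + d)| ≤ 1 := by
    have a := K.hmem (n + d)
    have b := K.hmem (m + d)
    rw [abs_le]
    constructor <;> linarith [a.1, a.2, b.1, b.2]
  have h2 : 0 ≤ (l⁻¹) ^ d := pow_nonneg K.linv_pos.le d
  nlinarith

theorem prod_PP (d : ℕ) : ∏ k ∈ Finset.range d, sg (ee (0 + k)) = sg (PP d) := by
  induction d with
  | zero => simp [PP, sg]
  | succ d ih =>
    rw [Finset.prod_range_succ, ih, zero_add]
    show _ = sg (xor (PP d) (ee d))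
    cases PP d <;> cases ee d <;> simp [sg]

/-- The basic formula. -/
theorem star {n : ℕ} (hn : 1 ≤ n) : ∃ d, X 0 - X n =
    (l⁻¹) ^ (d + 1) * ((X 0 - X (d + 1)) + (X 0 - X (n + d + 1))) ∧ (d = 0 → ee n = false) := by
  obtain ⟨d, hag, hor⟩ := max_e n hn
  refine ⟨d, ?_, ?_⟩
  · have h1 := K.diff (n := 0) (m := n) (d := d) fun k hk => by rw [zero_add, hag k hk]
    have h2 : ∏ k ∈ Finset.range d, sg (ee (n + k)) = sg (PP d) := by
      rw [← K.prod_PP d]
      exact Finset.prod_congr rfl fun k hk => by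
        rw [zero_add, hag k (Finset.mem_range.1 hk)]
    rw [h2, zero_add] at h1
    have hl : l⁻¹ * (2 * X 0) = 1 := by
      rw [K.h0]
      field_simp [K.lpos.ne']
    rcases hor with ⟨p1, p2, p3⟩ | ⟨p1, p2, p3⟩
    · rw [p1, K.rec_true p3, K.rec_false p2] at h1
      rw [h1, pow_succ, sg]
      linear_combination (-(l⁻¹) ^ d) * hl
    · rw [p1, K.rec_false p3, K.rec_true p2] at h1
      rw [h1, pow_succ, sg]
      linear_combination (-(l⁻¹) ^ d) * hl
  · rintro rfl
    rcases hor with ⟨p1, p2, p3⟩ | ⟨p1, p2, p3⟩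
    · rwa [add_zero] at p2
    · rw [PP_of0] at p1
      exact absurd p1 (by simp)

theorem small {n : ℕ} (h : ee n = false) : X n ≤ 10 / 19 := by
  rw [K.rec_false h]
  have h1 := K.hmem (n + 1)
  have h2 := K.linv_lt
  have h3 := K.linv_pos
  nlinarith [h1.1, h1.2]

/-- All points of the orbit lie below the critical value. -/
theorem weak (n : ℕ) : X n ≤ X 0 := by
  have hX0 : 19 / 20 ≤ X 0 := by rw [K.h0]; linarith [K.hl]
  have key : ∀ k : ℕ, ∀ n, 1 ≤ n → X n - X 0 ≤ (2 * (10 / 19) ^ 2 : ℝ) ^ k := by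
    intro k
    induction k with
    | zero =>
      intro n _
      rw [pow_zero]
      linarith [(K.hmem n).2]
    | succ k ih =>
      intro n hn
      obtain ⟨d, hd, hd0⟩ := K.star hn
      have hb : 0 ≤ (2 * (10 / 19) ^ 2 : ℝ) ^ k := by positivity
      rcases Nat.eq_zero_or_pos d with h0 | h0
      · have := K.small (hd0 h0)
        have : (0 : ℝ) ≤ (2 * (10 / 19) ^ 2 : ℝ) ^ (k + 1) := by positivity
        linarith
      · have i1 := ih (d + 1) (by omega)
        have i2 := ih (n + d + 1) (by omega)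
        have e1 : (l⁻¹) ^ (d + 1) ≤ (10 / 19 : ℝ) ^ 2 := by
          calc (l⁻¹) ^ (d + 1) ≤ (l⁻¹) ^ 2 :=
                pow_le_pow_of_le_one K.linv_pos.le K.linv_le_one (by omega)
            _ ≤ _ := pow_le_pow_left₀ K.linv_pos.le K.linv_lt 2
        have e0 : 0 ≤ (l⁻¹) ^ (d + 1) := pow_nonneg K.linv_pos.le _
        have e2 : X n - X 0 = (l⁻¹) ^ (d + 1) * ((X (d + 1) - X 0) + (X (n + d + 1) - X 0)) := by
          linear_combination (-1 : ℝ) * hd
        rw [e2, pow_succ]
        calc (l⁻¹) ^ (d + 1) * ((X (d + 1) - X 0) + (X (n + d + 1) - X 0))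
            ≤ (l⁻¹) ^ (d + 1) * (2 * (2 * (10 / 19) ^ 2 : ℝ) ^ k) :=
              mul_le_mul_of_nonneg_left (by linarith) e0
          _ ≤ (10 / 19 : ℝ) ^ 2 * (2 * (2 * (10 / 19) ^ 2 : ℝ) ^ k) :=
              mul_le_mul_of_nonneg_right e1 (by positivity)
          _ = _ := by ring
  rcases Nat.eq_zero_or_pos n with h0 | h0
  · rw [h0]
  · have hlim : Tendsto (fun k : ℕ => (2 * (10 / 19) ^ 2 : ℝ) ^ k) atTop (𝓝 0) :=
      tendsto_pow_atTop_nhds_zero_of_lt_one (by positivity) (by norm_num)
    have := ge_of_tendsto' hlim fun k => key k n h0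
    linarith

theorem side_false {n : ℕ} (h : ee n = false) : X n ≤ 1 / 2 := by
  rw [K.rec_false h]
  have h1 := K.weak (n + 1)
  rw [K.h0] at h1
  rw [inv_mul_le_iff₀ K.lpos]
  linarith

theorem side_true {n : ℕ} (h : ee n = true) : 1 / 2 ≤ X n := by
  rw [K.rec_true h]
  have h1 := K.weak (n + 1)
  rw [K.h0] at h1
  have : l⁻¹ * X (n + 1) ≤ 1 / 2 := by
    rw [inv_mul_le_iff₀ K.lpos]
    linarith
  linarith

theorem tent_X (n : ℕ) : tent l (X n) = X (n + 1) := by
  have hl := K.lpos.ne'
  cases h : ee n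
  · rw [tent_left (K.side_false h), K.rec_false h]
    field_simp
  · rw [tent_right (K.side_true h), K.rec_true h]
    field_simp
    ring

theorem iter_X (n k : ℕ) : (tent l)^[k] (X n) = X (n + k) := by
  induction k with
  | zero => rfl
  | succ k ih => rw [iterate_succ_apply', ih, K.tent_X, add_assoc]

theorem ne_zero {n : ℕ} (hn : 1 ≤ n) : X n ≠ X 0 := by
  intro hcon
  classical
  have hex : ∃ n, 1 ≤ n ∧ X n = X 0 := ⟨n, hn, hcon⟩
  obtain ⟨h1, h2⟩ := Nat.find_spec hex
  set p := Nat.find hex with hp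
  have hmin : ∀ m, 1 ≤ m → X m = X 0 → p ≤ m := fun m hm hm' => Nat.find_min' hex ⟨hm, hm'⟩
  have hper : ∀ k, X (k + p) = X k := by
    intro k
    have a := K.iter_X p k
    have b := K.iter_X 0 k
    rw [h2, b, zero_add] at a
    rw [add_comm k p]
    exact a.symm
  have hperm : ∀ t k, X (k + p * t) = X k := by
    intro t
    induction t with
    | zero => intro k; simp
    | succ t ih =>
      intro k
      rw [show k + p * (t + 1) = (k + p * t) + p by ring, hper, ih]
  rcases Nat.lt_or_ge 1 p with h | h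
  · obtain ⟨k, k', hd, hle, hne, hnd⟩ := aper p h
    obtain ⟨t, ht⟩ := hd
    have e1 : k' = k + p * t := by omega
    have e2 : X k' = X k := by rw [e1, hperm]
    have e3 : X k = 1 / 2 := by
      cases hk : ee k <;> cases hk' : ee k'
      · rw [hk, hk'] at hne; exact absurd rfl hne
      · have a := K.side_false hk
        have b := K.side_true hk'
        rw [e2] at b
        exact le_antisymm a b
      · have a := K.side_true hk
        have b := K.side_false hk'
        rw [e2] at b
        exact le_antisymm b a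
      · rw [hk, hk'] at hne; exact absurd rfl hne
    have e4 : X (k + 1) = X 0 := by rw [← K.tent_X, e3, tent_half, K.h0]
    have e5 : X ((k + 1) % p) = X 0 := by
      have := hperm ((k + 1) / p) ((k + 1) % p)
      rw [Nat.mod_add_div] at this
      rw [← this, e4]
    rcases Nat.eq_zero_or_pos ((k + 1) % p) with h0 | h0
    · exact hnd (Nat.dvd_of_mod_eq_zero h0)
    · have := hmin _ h0 e5
      have := Nat.mod_lt (k + 1) (show 0 < p by omega)
      omega
  · have hp1 : p = 1 := by omega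
    have e1 := hper 0
    rw [hp1, zero_add] at e1
    have e2 := K.small ee_of1
    have e3 : 19 / 20 ≤ X 0 := by rw [K.h0]; linarith [K.hl]
    linarith

theorem strict {n : ℕ} (hn : 1 ≤ n) : X n < l / 2 := by
  have h1 := K.weak n
  have h2 := K.ne_zero hn
  rw [← K.h0]
  exact lt_of_le_of_ne h1 h2

theorem lt_half {n : ℕ} (h : ee n = false) : X n < 1 / 2 := by
  rw [K.rec_false h, inv_mul_lt_iff₀ K.lpos]
  linarith [K.strict (n := n + 1) (by omega)]

theorem half_lt {n : ℕ} (h : ee n = true) : 1 / 2 < X n := by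
  rw [K.rec_true h]
  have : l⁻¹ * X (n + 1) < 1 / 2 := by
    rw [inv_mul_lt_iff₀ K.lpos]
    linarith [K.strict (n := n + 1) (by omega)]
  linarith

theorem ne_half (n : ℕ) : X n ≠ 1 / 2 := by
  cases h : ee n
  · exact (K.lt_half h).ne
  · exact (K.half_lt h).ne'

theorem ee_eq_true_iff (n : ℕ) : ee n = true ↔ 1 / 2 < X n := by
  constructor
  · exact K.half_lt
  · intro h
    cases h' : ee n
    · exact absurd (K.lt_half h') (not_lt.2 h.le)
    · rfl

theorem ee_eq_false_iff (n : ℕ) : ee n = false ↔ X n < 1 / 2 := by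
  constructor
  · exact K.lt_half
  · intro h
    cases h' : ee n
    · rfl
    · exact absurd (K.half_lt h') (not_lt.2 h.le)

end KS

end Pool.Agent.Lib.MP_34a220_an
end

section

/-!
# Dynamics of the tent map: recurrence, separation, persistent recurrence
-/

namespace Pool.Agent.Lib.MP_34a220_an

open Filter Topology Set Function

/-- `t` lies between consecutive cuts -/
theorem cuts {t j : ℕ} (h1 : 2 * 5 ^ j < t) (h2 : t ≤ 2 * 5 ^ (j + 1)) :
    ∃ T u : ℕ, 1 ≤ T ∧ 5 ^ j * T < t ∧ t ≤ 5 ^ j * (T + u + 1) ∧ PP (5 ^ j * T) = true ∧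
      ∀ k, k + 1 < 5 ^ j * (u + 1) → ee (5 ^ j * T + k) = ee k := by
  have hp : 0 < 5 ^ j := by positivity
  rw [pow_succ] at h2
  have P2 : PP 2 = true := PP_of2
  have P3 : PP 3 = true := by show xor (PP 2) (ee 2) = true; rw [P2, ee_of2]; rfl
  have P4 : PP 4 = true := by show xor (PP 3) (ee 3) = true; rw [P3, ee_of3]; rfl
  have P5 : PP 5 = true := by show xor (PP 4) (ee 4) = true; rw [P4, ee_of4]; rfl
  have P6 : PP 6 = true := by show xor (PP 5) (ee 5) = true; rw [P5, ee_of5]; rfl
  have E6 : ee 6 = true := by rw [ee, NN_6]; rfl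
  have E7 : ee 7 = false := by rw [ee, NN_7]; rfl
  have E8 : ee 8 = true := by rw [ee, NN_8]; rfl
  have P7 : PP 7 = false := by show xor (PP 6) (ee 6) = false; rw [P6, E6]; rfl
  have P8 : PP 8 = false := by show xor (PP 7) (ee 7) = false; rw [P7, E7]; rfl
  have P9 : PP 9 = true := by show xor (PP 8) (ee 8) = true; rw [P8, E8]; rfl
  have N0 : NN 0 ≠ .B := by rw [NN_zero]; simp
  have mk : ∀ T u, PP T = true → (∀ i < u, NN (T + i) = NN i) → NN (T + u) ≠ .B → NN u ≠ .B →
      PP (5 ^ j * T) = true ∧ ∀ k, k + 1 < 5 ^ j * (u + 1) → ee (5 ^ j * T + k) = ee k := by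
    intro T u hP h h1 h2
    refine ⟨by rw [PP_pow, hP], fun k hk => ?_⟩
    rw [ee, ee, cut_block h h1 h2 j k hk]
  rcases Nat.lt_or_ge (5 ^ j * 3) t with g3 | g3
  · rcases Nat.lt_or_ge (5 ^ j * 4) t with g4 | g4
    · rcases Nat.lt_or_ge (5 ^ j * 5) t with g5 | g5
      · rcases Nat.lt_or_ge (5 ^ j * 6) t with g6 | g6
        · rcases Nat.lt_or_ge (5 ^ j * 9) t with g9 | g9
          · obtain ⟨a, b⟩ := mk 9 0 P9 (fun i hi => absurd hi (Nat.not_lt_zero i))
              (by rw [add_zero, NN_9]; simp) N0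
            exact ⟨9, 0, by norm_num, g9, by omega, a, b⟩
          · obtain ⟨a, b⟩ := mk 6 2 P6 (fun i hi => by
                have : i = 0 ∨ i = 1 := by omega
                rcases this with rfl | rfl
                · rw [add_zero, NN_6, NN_zero]
                · rw [show 6 + 1 = 7 by norm_num, NN_7, NN_1])
              (by rw [show 6 + 2 = 8 by norm_num, NN_8]; simp) (by rw [NN_2]; simp)
            exact ⟨6, 2, by norm_num, g6, by omega, a, b⟩
        · obtain ⟨a, b⟩ := mk 5 0 P5 (fun i hi => absurd hi (Nat.not_lt_zero i))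
            (by rw [add_zero, NN_5]; simp) N0
          exact ⟨5, 0, by norm_num, g5, by omega, a, b⟩
      · obtain ⟨a, b⟩ := mk 4 0 P4 (fun i hi => absurd hi (Nat.not_lt_zero i))
          (by rw [add_zero, NN_4]; simp) N0
        exact ⟨4, 0, by norm_num, g4, by omega, a, b⟩
    · obtain ⟨a, b⟩ := mk 3 0 P3 (fun i hi => absurd hi (Nat.not_lt_zero i))
        (by rw [add_zero, NN_3]; simp) N0
      exact ⟨3, 0, by norm_num, g3, by omega, a, b⟩
  · obtain ⟨a, b⟩ := mk 2 0 P2 (fun i hi => absurd hi (Nat.not_lt_zero i))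
      (by rw [add_zero, NN_2]; simp) N0
    exact ⟨2, 0, by norm_num, by omega, by omega, a, b⟩

theorem exists_level {t : ℕ} (ht : 3 ≤ t) : ∃ j, 2 * 5 ^ j < t ∧ t ≤ 2 * 5 ^ (j + 1) := by
  refine ⟨Nat.log 5 ((t - 1) / 2), ?_, ?_⟩
  · have := Nat.pow_log_le_self 5 (x := (t - 1) / 2) (by omega)
    omega
  · have := Nat.lt_pow_succ_log_self (b := 5) (by norm_num) ((t - 1) / 2)
    rw [Nat.succ_eq_add_one] at this
    omega

/-- the tent map is monotone on each side: betweenness -/
theorem tent_uIcc {l a b x : ℝ} (hl : 0 < l) (hside : (a ≤ 1 / 2 ∧ b ≤ 1 / 2) ∨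
    (1 / 2 ≤ a ∧ 1 / 2 ≤ b)) (hx : x ∈ uIcc a b) : tent l x ∈ uIcc (tent l a) (tent l b) := by
  rw [mem_uIcc] at hx ⊢
  rcases hside with ⟨ha, hb⟩ | ⟨ha, hb⟩
  · have hx2 : x ≤ 1 / 2 := by rcases hx with h | h <;> linarith [h.1, h.2]
    rw [tent_left ha, tent_left hb, tent_left hx2]
    rcases hx with h | h
    · left; constructor <;> nlinarith [h.1, h.2]
    · right; constructor <;> nlinarith [h.1, h.2]
  · have hx2 : 1 / 2 ≤ x := by rcases hx with h | h <;> linarith [h.1, h.2]
    rw [tent_right ha, tent_right hb, tent_right hx2]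
    rcases hx with h | h
    · right; constructor <;> nlinarith [h.1, h.2]
    · left; constructor <;> nlinarith [h.1, h.2]

namespace KS

variable {l : ℝ} {X : ℕ → ℝ} (K : KS l X)

include K

/-- the orbit of the turning point -/
theorem Y_succ (n : ℕ) : (tent l)^[n + 1] (1 / 2) = X n := by
  rw [iterate_succ_apply, tent_half, ← K.h0]
  have := K.iter_X 0 n
  rwa [zero_add] at this

theorem dist_half (x : ℝ) : l / 2 - tent l x = l * |x - 1 / 2| := by
  rcases le_total x (1 / 2) with h | h
  · rw [tent_left h, abs_of_nonpos (by linarith)]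
    ring
  · rw [tent_right h, abs_of_nonneg (by linarith)]
    ring

/-- the orbit is close to the turning point at times divisible by high powers of 5 -/
theorem near {ε : ℝ} (hε : 0 < ε) : ∃ J, ∀ j, J ≤ j → ∀ q,
    |(tent l)^[5 ^ j * q] (1 / 2) - 1 / 2| < ε := by
  obtain ⟨M, hM⟩ := exists_pow_lt_of_lt_one hε (y := l⁻¹) (by linarith [K.linv_lt])
  refine ⟨M + 2, fun j hj q => ?_⟩
  rcases Nat.eq_zero_or_pos q with h0 | h0
  · subst h0
    simpa using hε
  obtain ⟨n, hn⟩ : ∃ n, 5 ^ j * q = n + 1 := ⟨5 ^ j * q - 1, by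
    have : 0 < 5 ^ j * q := by positivity
    omega⟩
  rw [hn, K.Y_succ]
  obtain ⟨i, rfl⟩ : ∃ i, j = i + 1 := ⟨j - 1, by omega⟩
  have hi : M + 1 < 5 ^ i := by
    have h1 : M + 1 ≤ i := by omega
    have h2 : i < 5 ^ i := Nat.lt_pow_self (by norm_num)
    omega
  have hag : ∀ k < M, ee (0 + k) = ee (n + 1 + k) := by
    intro k hk
    rw [zero_add, ← hn, ee, ee, pre_block i q k (by omega)]
  have h1 := K.abs_diff_le hag
  have h2 := K.dist_half (X n)
  rw [K.tent_X, ← K.h0] at h2
  have h3 : l * |X n - 1 / 2| ≤ (l⁻¹) ^ M := by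
    rw [← h2]
    exact (le_abs_self _).trans h1
  have h4 : |X n - 1 / 2| ≤ l * |X n - 1 / 2| := by
    have := abs_nonneg (X n - 1 / 2)
    nlinarith [K.hl]
  linarith

/-- if a point of the orbit is close to the critical value, it has the same first symbols -/
theorem same_symbols (L : ℕ) : ∃ η > 0, ∀ n, |X n - X 0| < η → ∀ k < L, ee (n + k) = ee k := by
  induction L with
  | zero => exact ⟨1, one_pos, fun n _ k hk => absurd hk (Nat.not_lt_zero k)⟩
  | succ L ih =>
    obtain ⟨η, hη, h⟩ := ih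
    have hpos : 0 < |X L - 1 / 2| := abs_pos.2 (sub_ne_zero.2 (K.ne_half L))
    have hc : Continuous ((tent l)^[L]) := (tent_cont l).iterate L
    obtain ⟨η', hη', h'⟩ := Metric.continuousAt_iff.1 (hc.continuousAt (x := X 0)) _ hpos
    refine ⟨min η η', lt_min hη hη', fun n hn k hk => ?_⟩
    rcases Nat.lt_or_ge k L with hlt | hge
    · exact h n (lt_of_lt_of_le hn (min_le_left _ _)) k hlt
    · have : k = L := by omega
      subst this
      have h1 := h' (x := X n) (by
        rw [Real.dist_eq]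
        exact lt_of_lt_of_le hn (min_le_right _ _))
      rw [K.iter_X, K.iter_X, zero_add, Real.dist_eq] at h1
      cases hk' : ee k
      · rw [K.ee_eq_false_iff] at hk' ⊢
        rw [abs_of_neg (by linarith : X k - 1 / 2 < 0)] at h1
        linarith [(abs_lt.1 h1).2]
      · rw [K.ee_eq_true_iff] at hk' ⊢
        rw [abs_of_pos (by linarith : 0 < X k - 1 / 2)] at h1
        linarith [(abs_lt.1 h1).1]

theorem near_opp {n m : ℕ} (h : ee n ≠ ee m) : |X n - 1 / 2| ≤ |X n - X m| := by
  cases hn : ee n <;> cases hm : ee m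
  · rw [hn, hm] at h; exact absurd rfl h
  · have a := K.lt_half hn
    have b := K.half_lt hm
    rw [abs_of_neg (by linarith), abs_of_neg (by linarith)]
    linarith
  · have a := K.half_lt hn
    have b := K.lt_half hm
    rw [abs_of_pos (by linarith), abs_of_pos (by linarith)]
    linarith
  · rw [hn, hm] at h; exact absurd rfl h

/-- Separation: the tent map is injective on the orbit closure, uniformly. -/
theorem separation {δ : ℝ} (hδ : 0 < δ) : ∃ κ > 0, ∀ n m, ee n ≠ ee m → δ ≤ |X n - 1 / 2| →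
    κ ≤ |X (n + 1) - X (m + 1)| := by
  obtain ⟨J, hJ⟩ := K.near hδ
  obtain ⟨L, hL⟩ := special_e J
  obtain ⟨L', hL'⟩ := recog_zero (L + 2)
  obtain ⟨η, hη, hsym⟩ := K.same_symbols L'
  have hpL : 0 < (l⁻¹) ^ L := pow_pos K.linv_pos L
  refine ⟨(l⁻¹) ^ L * (η / 4), by positivity, fun n m hne hδn => ?_⟩
  by_contra hcon
  rw [not_le] at hcon
  -- first difference after `n`
  have hex : ∃ d, d < L ∧ ee (n + 1 + d) ≠ ee (m + 1 + d) := by
    by_contra hno
    push Not at hno
    have h1 := hL n m hne (fun k hk1 hk2 => by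
      have := hno (k - 1) (by omega)
      rwa [show n + 1 + (k - 1) = n + k by omega, show m + 1 + (k - 1) = m + k by omega] at this)
    obtain ⟨q, hq⟩ := h1
    have h2 := hJ J le_rfl q
    rw [← hq, K.Y_succ] at h2
    linarith
  classical
  obtain ⟨hd1, hd2⟩ := Nat.find_spec hex
  set d := Nat.find hex with hd
  have hag : ∀ k < d, ee (n + 1 + k) = ee (m + 1 + k) := by
    intro k hk
    by_contra hk'
    exact Nat.find_min hex hk ⟨by omega, hk'⟩
  have h1 := K.abs_diff hag
  have h2 : (l⁻¹) ^ L ≤ (l⁻¹) ^ d :=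
    pow_le_pow_of_le_one K.linv_pos.le K.linv_le_one hd1.le
  have h3 : |X (n + 1 + d) - X (m + 1 + d)| < η / 4 := by
    by_contra hge
    rw [not_lt] at hge
    have : (l⁻¹) ^ L * (η / 4) ≤ |X (n + 1) - X (m + 1)| := by
      rw [h1]
      exact mul_le_mul h2 hge (by positivity) (pow_nonneg K.linv_pos.le d)
    linarith
  have fin : ∀ n m, ee n ≠ ee m → |X n - X m| < η / 4 → 5 ^ (L + 2) ∣ n + 1 := by
    intro n m hne hlt
    refine hL' _ (hsym _ ?_)
    have a := K.near_opp hne
    have b := K.dist_half (X n)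
    rw [K.tent_X, ← K.h0] at b
    rw [abs_sub_comm, abs_of_nonneg (by linarith [K.weak (n + 1)]), b]
    have := abs_nonneg (X n - 1 / 2)
    nlinarith [K.hl2, K.lpos]
  have f1 := fin _ _ hd2 h3
  have f2 := fin _ _ hd2.symm (by rwa [abs_sub_comm])
  have hbig : L + 1 < 5 ^ (L + 1) := Nat.lt_pow_self (by norm_num)
  have := left_unique (j := L + 1) (i := d + 2) f1 f2 (by omega) (by omega) (by omega) (by omega)
  rw [show n + 1 + d + 1 - (d + 2) = n by omega, show m + 1 + d + 1 - (d + 2) = m by omega] at this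
  exact hne this

theorem pairAB (j : ℕ) : ∃ o, (NN o = .A ∧ NN (5 ^ j + o) = .B) ∨
    (NN o = .B ∧ NN (5 ^ j + o) = .A) := by
  induction j with
  | zero => exact ⟨0, Or.inl ⟨NN_zero, by rw [pow_zero]; exact NN_1⟩⟩
  | succ j ih =>
    obtain ⟨o, h⟩ := ih
    refine ⟨5 * o + 1, ?_⟩
    have e : 5 ^ (j + 1) + (5 * o + 1) = 5 * (5 ^ j + o) + 1 := by rw [pow_succ]; ring
    rw [e, NN_five o (by norm_num), NN_five _ (by norm_num)]
    rcases h with ⟨h1, h2⟩ | ⟨h1, h2⟩
    · right
      rw [h1, h2]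
      exact ⟨rfl, rfl⟩
    · left
      rw [h1, h2]
      exact ⟨rfl, rfl⟩

theorem far {o o' : ℕ} (h1 : NN o = .A) (h2 : NN o' = .B) :
    1 / 3 ≤ |X (5 * o + 1) - X (5 * o' + 1)| := by
  have a1 : ee (5 * o + 1) = false := by rw [ee_five o (by norm_num), h1]; rfl
  have a2 : ee (5 * o + 2) = false := by rw [ee_five o (by norm_num), h1]; rfl
  have a3 : ee (5 * o + 3) = false := by rw [ee_five o (by norm_num), h1]; rfl
  have b1 : ee (5 * o' + 1) = true := by rw [ee_five o' (by norm_num), h2]; rfl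
  have c1 := K.rec_false a1
  have c2 := K.rec_false a2
  have c3 := K.small a3
  have c4 := K.half_lt b1
  rw [show 5 * o + 1 + 1 = 5 * o + 2 by ring] at c1
  rw [show 5 * o + 2 + 1 = 5 * o + 3 by ring] at c2
  have g1 := K.linv_lt
  have g2 := K.linv_pos
  have g3 := (K.hmem (5 * o + 3)).1
  have d2 : X (5 * o + 2) ≤ (10 / 19) * (10 / 19) := by rw [c2]; nlinarith
  have d3 := (K.hmem (5 * o + 2)).1
  have d1 : X (5 * o + 1) ≤ (10 / 19) * ((10 / 19) * (10 / 19)) := by rw [c1]; nlinarith
  rw [abs_of_neg (by norm_num at d1; linarith)]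
  norm_num at d1
  linarith

/-- The map is not equicontinuous on the orbit of the turning point. -/
theorem not_equi {η : ℝ} (hη : 0 < η) : ∃ n k, |X n - X 0| < η ∧
    1 / 3 ≤ |X (n + k) - X k| := by
  obtain ⟨M, hM⟩ := exists_pow_lt_of_lt_one hη (y := l⁻¹) (by linarith [K.linv_lt])
  obtain ⟨o, ho⟩ := K.pairAB (M + 1)
  refine ⟨5 ^ (M + 2), 5 * o + 1, ?_, ?_⟩
  · have hM5 : M + 1 < 5 ^ (M + 1) := Nat.lt_pow_self (by norm_num)
    refine lt_of_le_of_lt (K.abs_diff_le (n := 5 ^ (M + 2)) (m := 0) (d := M) fun k hk => ?_) hM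
    rw [zero_add, ee, ee]
    have := pre_block (M + 1) 1 k (by omega)
    rw [mul_one] at this
    rw [this]
  · have e : 5 ^ (M + 2) + (5 * o + 1) = 5 * (5 ^ (M + 1) + o) + 1 := by
      rw [pow_succ _ (M + 1)]; ring
    rw [e]
    rcases ho with ⟨h1, h2⟩ | ⟨h1, h2⟩
    · rw [abs_sub_comm]
      exact K.far h1 h2
    · exact K.far h2 h1

end KS

end Pool.Agent.Lib.MP_34a220_an
end

section

/-!
# Persistent recurrence of the turning point, in the strong sense
-/

namespace Pool.Agent.Lib.MP_34a220_an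

open Filter Topology Set Function

theorem sg_xor (a b : Bool) : sg (xor a b) = sg a * sg b := by
  cases a <;> cases b <;> simp [sg]

namespace KS

variable {l : ℝ} {X : ℕ → ℝ} (K : KS l X)

include K

theorem tent_mem {x : ℝ} (hx : x ∈ Icc (0 : ℝ) 1) : tent l x ∈ Icc (0 : ℝ) 1 := by
  have h1 := K.lpos
  have h2 := K.hl2
  rcases le_total x (1 / 2) with h | h
  · rw [tent_left h]
    constructor <;> nlinarith [hx.1, hx.2]
  · rw [tent_right h]
    constructor <;> nlinarith [hx.1, hx.2]

theorem iter_mem {x : ℝ} (hx : x ∈ Icc (0 : ℝ) 1) (n : ℕ) : (tent l)^[n] x ∈ Icc (0 : ℝ) 1 := by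
  induction n with
  | zero => exact hx
  | succ n ih =>
    rw [iterate_succ_apply']
    exact K.tent_mem ih

/-- up to the first time at which the orbits of `x` and of the turning point are on different
sides, the iterates are affine on `[x, 1/2]` -/
theorem affine {x : ℝ} {t : ℕ} (hside : ∀ i, 1 ≤ i → i < t →
    0 ≤ ((tent l)^[i] x - 1 / 2) * ((tent l)^[i] (1 / 2) - 1 / 2)) (n : ℕ) (hn : n + 1 ≤ t) :
    ∀ z ∈ Icc x (1 / 2), (tent l)^[n + 1] z = X n - sg (PP n) * l ^ (n + 1) * (1 / 2 - z) := by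
  induction n with
  | zero =>
    intro z hz
    rw [zero_add, iterate_one, tent_left hz.2, K.h0]
    show _ = l / 2 - sg false * l ^ 1 * (1 / 2 - z)
    rw [sg]
    ring
  | succ n ih =>
    intro z hz
    have ih' := ih (by omega)
    have hxz : x ≤ 1 / 2 := hz.1.trans hz.2
    have e1 := ih' z hz
    have e2 := ih' x ⟨le_rfl, hxz⟩
    have hs := hside (n + 1) (by omega) (by omega)
    rw [K.Y_succ] at hs
    rw [iterate_succ_apply']
    have hPP : PP (n + 1) = xor (PP n) (ee n) := rfl
    rw [hPP, sg_xor]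
    set a := sg (PP n) * l ^ (n + 1) with ha
    cases hn' : ee n
    · have h1 := K.lt_half hn'
      have h2 : (tent l)^[n + 1] x ≤ 1 / 2 := by
        by_contra hcon
        rw [not_le] at hcon
        nlinarith
      have h3 : (tent l)^[n + 1] z ≤ 1 / 2 := by
        rw [e1]
        rw [e2] at h2
        rcases le_total 0 a with h | h
        · nlinarith [hz.2]
        · nlinarith [hz.1, hz.2]
      have h4 := K.tent_X n
      rw [tent_left h1.le] at h4
      rw [tent_left h3, e1, ← h4, sg]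
      ring
    · have h1 := K.half_lt hn'
      have h2 : 1 / 2 ≤ (tent l)^[n + 1] x := by
        by_contra hcon
        rw [not_le] at hcon
        nlinarith
      have h3 : 1 / 2 ≤ (tent l)^[n + 1] z := by
        rw [e1]
        rw [e2] at h2
        rcases le_total 0 a with h | h
        · nlinarith [hz.1, hz.2]
        · nlinarith [hz.2]
      have h4 := K.tent_X n
      rw [tent_right h1.le] at h4
      rw [tent_right h3, e1, ← h4, sg]
      ring

/-- Strong persistent recurrence on the left of the turning point. -/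
theorem persist {ε : ℝ} (hε : 0 < ε) : ∃ N, ∀ s, N ≤ s → ∀ x, 0 ≤ x → x < 1 / 2 →
    InjOn ((tent l)^[s]) (Ico x (1 / 2)) →
    |(tent l)^[s] x - (tent l)^[s] (1 / 2)| < ε := by
  obtain ⟨J, hJ⟩ := K.near (half_pos hε)
  refine ⟨2 * 5 ^ (J + 1) + 3, fun s hs x hx0 hx hinj => ?_⟩
  have hl1 : 1 < l := by linarith [K.hl]
  have hl0 := K.lpos
  -- the first time of opposite sides
  have hex : ∃ t, 1 ≤ t ∧ ((tent l)^[t] x - 1 / 2) * ((tent l)^[t] (1 / 2) - 1 / 2) < 0 := by
    by_contra hno
    push Not at hno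
    obtain ⟨n, hn⟩ := pow_unbounded_of_one_lt (1 / (1 / 2 - x)) hl1
    have h1 := K.affine (x := x) (t := n + 1) (fun i hi _ => hno i hi) n le_rfl x
      ⟨le_rfl, hx.le⟩
    have h2 := K.iter_mem (x := x) ⟨hx0, by linarith⟩ (n + 1)
    have h3 := K.hmem n
    have h4 : l ^ (n + 1) * (1 / 2 - x) ≤ 1 := by
      rcases hP : PP n with _ | _
      · rw [hP, sg] at h1
        linarith [h2.1, h2.2, h3.1, h3.2]
      · rw [hP, sg] at h1
        linarith [h2.1, h2.2, h3.1, h3.2]
    have h5 : 1 < l ^ n * (1 / 2 - x) := by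
      rwa [div_lt_iff₀ (by linarith)] at hn
    have h6 : l ^ n ≤ l ^ (n + 1) := pow_le_pow_right₀ hl1.le (by omega)
    nlinarith
  classical
  obtain ⟨ht1, ht2⟩ := Nat.find_spec hex
  set t := Nat.find hex with htdef
  have hside : ∀ i, 1 ≤ i → i < t →
      0 ≤ ((tent l)^[i] x - 1 / 2) * ((tent l)^[i] (1 / 2) - 1 / 2) := by
    intro i hi1 hi2
    by_contra hcon
    rw [not_le] at hcon
    exact Nat.find_min hex hi2 ⟨hi1, hcon⟩
  have haff := K.affine hside
  obtain ⟨n, hn⟩ : ∃ n, t = n + 1 := ⟨t - 1, by omega⟩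
  -- the fold happens not before time `s`
  have hst : s ≤ t := by
    by_contra hcon
    rw [not_le] at hcon
    have hfn := haff n (by omega)
    rw [hn, K.Y_succ, hfn x ⟨le_rfl, hx.le⟩] at ht2
    have ha : sg (PP n) * l ^ (n + 1) ≠ 0 := by
      have : sg (PP n) ≠ 0 := by cases PP n <;> simp [sg]
      exact mul_ne_zero this (pow_pos hl0 _).ne'
    set a := sg (PP n) * l ^ (n + 1) with hadef
    obtain ⟨r, hr⟩ : ∃ r, a * r = X n - 1 / 2 := ⟨(X n - 1 / 2) / a, by field_simp⟩
    have hasq : 0 < a ^ 2 := by positivity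
    have hrr : r * (r - (1 / 2 - x)) < 0 := by
      have e : (X n - a * (1 / 2 - x) - 1 / 2) * (X n - 1 / 2) =
          a ^ 2 * (r * (r - (1 / 2 - x))) := by
        linear_combination (-(X n - a * (1 / 2 - x) - 1 / 2) - a * r) * hr
      rw [e] at ht2
      by_contra hge
      rw [not_lt] at hge
      have := mul_nonneg hasq.le hge
      linarith
    have hr0 : 0 < r := by
      by_contra hle
      rw [not_lt] at hle
      have : r - (1 / 2 - x) ≤ 0 := by linarith
      have := mul_nonneg_of_nonpos_of_nonpos hle this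
      linarith
    have hrD : r < 1 / 2 - x := by
      by_contra hge
      rw [not_lt] at hge
      have : 0 ≤ r - (1 / 2 - x) := by linarith
      have := mul_nonneg hr0.le this
      linarith
    obtain ⟨h, hh0, hh1, hh2⟩ : ∃ h, 0 < h ∧ h < r ∧ h < 1 / 2 - x - r := by
      refine ⟨min r (1 / 2 - x - r) / 2, by
        have : 0 < min r (1 / 2 - x - r) := lt_min hr0 (by linarith)
        linarith, ?_, ?_⟩
      · have := min_le_left r (1 / 2 - x - r)
        linarith
      · have := min_le_right r (1 / 2 - x - r)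
        linarith
    have e1 := hfn (1 / 2 - r + h) ⟨by linarith, by linarith⟩
    have e2 := hfn (1 / 2 - r - h) ⟨by linarith, by linarith⟩
    have e3 : tent l ((tent l)^[n + 1] (1 / 2 - r + h)) =
        tent l ((tent l)^[n + 1] (1 / 2 - r - h)) := by
      rw [e1, e2, ← tent_symm l (X n - a * (1 / 2 - (1 / 2 - r - h)))]
      congr 1
      linear_combination (-2 : ℝ) * hr
    have e4 : (tent l)^[s] (1 / 2 - r + h) = (tent l)^[s] (1 / 2 - r - h) := by
      obtain ⟨k, rfl⟩ : ∃ k, s = k + (n + 1 + 1) := ⟨s - (n + 1 + 1), by omega⟩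
      have i1 : ∀ y, (tent l)^[k + (n + 1 + 1)] y = (tent l)^[k] (tent l ((tent l)^[n + 1] y)) := by
        intro y
        rw [iterate_add_apply (tent l) k (n + 1 + 1), iterate_succ_apply' (tent l) (n + 1)]
      rw [i1, i1, e3]
    have := hinj ⟨by linarith, by linarith⟩ ⟨by linarith, by linarith⟩ e4
    linarith
  -- the distance at time `t`
  have hdist : ∀ i, 1 ≤ i → i ≤ t →
      |(tent l)^[i] x - (tent l)^[i] (1 / 2)| = l ^ i * (1 / 2 - x) := by
    intro i hi1 hi2
    obtain ⟨k, rfl⟩ : ∃ k, i = k + 1 := ⟨i - 1, by omega⟩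
    rw [K.Y_succ, haff k hi2 x ⟨le_rfl, hx.le⟩]
    have hp : 0 < l ^ (k + 1) * (1 / 2 - x) := mul_pos (pow_pos hl0 _) (by linarith)
    cases PP k
    · rw [sg, abs_of_neg (by linarith)]
      ring
    · rw [sg, abs_of_pos (by linarith)]
      ring
  have hpow : 0 < 5 ^ (J + 1) := by positivity
  have hs_le : |(tent l)^[s] x - (tent l)^[s] (1 / 2)| ≤
      |(tent l)^[t] x - (tent l)^[t] (1 / 2)| := by
    rw [hdist s (by omega) hst, hdist t ht1 le_rfl]
    exact mul_le_mul_of_nonneg_right (pow_le_pow_right₀ hl1.le hst) (by linarith)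
  refine lt_of_le_of_lt hs_le ?_
  -- cuts
  obtain ⟨j, hj1, hj2⟩ := exists_level (t := t) (by omega)
  have hJj : J ≤ j := by
    by_contra hcon
    rw [not_le] at hcon
    have : 5 ^ (j + 1) ≤ 5 ^ (J + 1) := Nat.pow_le_pow_right (by norm_num) (by omega)
    omega
  obtain ⟨T, u, hT, hT1, hT2, hPP, hag⟩ := cuts hj1 hj2
  have hp5 : 0 < 5 ^ j := by positivity
  set i₀ := 5 ^ j * T with hi₀
  have hi₀pos : 0 < i₀ := by positivity
  -- position at time `i₀`
  have hw : (tent l)^[i₀] x ∈ uIcc (1 / 2) ((tent l)^[i₀] (1 / 2)) := by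
    obtain ⟨k, hk⟩ : ∃ k, i₀ = k + 1 := ⟨i₀ - 1, by omega⟩
    have hs := hside i₀ (by omega) hT1
    rw [hk] at hs hPP ⊢
    have hk1 := haff k (by omega) x ⟨le_rfl, hx.le⟩
    rw [K.Y_succ] at hs ⊢
    have hPk : xor (PP k) (ee k) = true := hPP
    have hp : 0 < l ^ (k + 1) * (1 / 2 - x) := mul_pos (pow_pos hl0 _) (by linarith)
    rw [mem_uIcc]
    cases hek : ee k
    · have h1 := K.lt_half hek
      rw [hek] at hPk
      have hPk' : PP k = true := by simpa using hPk
      rw [hPk', sg] at hk1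
      right
      constructor
      · linarith
      · by_contra hcon
        rw [not_le] at hcon
        nlinarith
    · have h1 := K.half_lt hek
      rw [hek] at hPk
      have hPk' : PP k = false := by
        cases h : PP k
        · rfl
        · rw [h] at hPk; simp at hPk
      rw [hPk', sg] at hk1
      left
      constructor
      · by_contra hcon
        rw [not_le] at hcon
        nlinarith
      · linarith
  -- betweenness
  have hbt : ∀ k, k ≤ 5 ^ j * (u + 1) → (tent l)^[i₀ + k] x ∈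
      uIcc ((tent l)^[k] (1 / 2)) ((tent l)^[i₀ + k] (1 / 2)) := by
    intro k
    induction k with
    | zero => intro _; exact hw
    | succ k ih =>
      intro hk
      rw [← add_assoc, iterate_succ_apply', iterate_succ_apply', iterate_succ_apply']
      refine tent_uIcc hl0 ?_ (ih (by omega))
      rcases Nat.eq_zero_or_pos k with h0 | h0
      · subst h0
        rcases le_total ((tent l)^[i₀ + 0] (1 / 2)) (1 / 2) with h | h
        · left; exact ⟨le_rfl, h⟩
        · right; exact ⟨le_rfl, h⟩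
      · obtain ⟨k', rfl⟩ : ∃ k', k = k' + 1 := ⟨k - 1, by omega⟩
        rw [← add_assoc, K.Y_succ, K.Y_succ]
        have := hag k' (by omega)
        cases hk' : ee k'
        · rw [hk'] at this
          left; exact ⟨(K.lt_half hk').le, (K.lt_half this).le⟩
        · rw [hk'] at this
          right; exact ⟨(K.half_lt hk').le, (K.half_lt this).le⟩
  have htk : i₀ + (t - i₀) = t := by omega
  have hb := hbt (t - i₀) (by
    have : 5 ^ j * (T + u + 1) = i₀ + 5 ^ j * (u + 1) := by rw [hi₀]; ring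
    omega)
  rw [htk] at hb
  have hkt : t - i₀ = 5 ^ j * (u + 1) := by
    by_contra hne
    have hlt : t - i₀ < 5 ^ j * (u + 1) := by
      have : 5 ^ j * (T + u + 1) = i₀ + 5 ^ j * (u + 1) := by rw [hi₀]; ring
      omega
    obtain ⟨k', hk'⟩ : ∃ k', t - i₀ = k' + 1 := ⟨t - i₀ - 1, by omega⟩
    have hag' := hag k' (by omega)
    rw [hk', K.Y_succ, mem_uIcc] at hb
    have htn : n = i₀ + k' := by omega
    rw [hn, K.Y_succ] at hb ht2
    rw [← htn] at hag'
    cases hk'' : ee k'
    · rw [hk''] at hag'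
      have a1 := K.lt_half hk''
      have a2 := K.lt_half hag'
      have : (tent l)^[n + 1] x < 1 / 2 := by rcases hb with h | h <;> linarith [h.1, h.2]
      nlinarith
    · rw [hk''] at hag'
      have a1 := K.half_lt hk''
      have a2 := K.half_lt hag'
      have : 1 / 2 < (tent l)^[n + 1] x := by rcases hb with h | h <;> linarith [h.1, h.2]
      nlinarith
  have n1 := hJ j hJj (u + 1)
  have n2 := hJ j hJj (T + (u + 1))
  rw [← hkt] at n1
  have ht' : 5 ^ j * (T + (u + 1)) = t := by
    rw [mul_add, ← hkt, ← hi₀]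
    omega
  rw [ht'] at n2
  rw [abs_lt] at n1 n2 ⊢
  rw [mem_uIcc] at hb
  rcases hb with h | h
  · constructor <;> linarith [h.1, h.2, n1.1, n1.2, n2.1, n2.2]
  · constructor <;> linarith [h.1, h.2, n1.1, n1.2, n2.1, n2.2]

end KS

end Pool.Agent.Lib.MP_34a220_an
end

section

/-!
# The example
-/

namespace Pool.Agent.Lib.MP_34a220_an

open Filter Topology Set Function

/-- the tent map as a map of the unit interval -/
noncomputable def tentI {l : ℝ} {X : ℕ → ℝ} (K : KS l X) (x : unitInterval) : unitInterval :=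
  ⟨tent l x, K.tent_mem x.2⟩

/-- the turning point -/
noncomputable def hf : unitInterval := ⟨1 / 2, by norm_num, by norm_num⟩

section

variable {l : ℝ} {X : ℕ → ℝ} (K : KS l X)

include K

theorem tentI_iter (n : ℕ) (x : unitInterval) : (((tentI K)^[n] x : unitInterval) : ℝ) =
    (tent l)^[n] (x : ℝ) := by
  induction n generalizing x with
  | zero => rfl
  | succ n ih => rw [iterate_succ_apply, ih, iterate_succ_apply]; rfl

theorem tentI_cont : Continuous (tentI K) :=
  ((tent_cont l).comp continuous_subtype_val).subtype_mk _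

theorem tentI_unimodal : IsUnimodal (tentI K) hf where
  cont := tentI_cont K
  pos := by
    show (0 : ℝ) < 1 / 2
    norm_num
  lt_one := by
    show (1 / 2 : ℝ) < 1
    norm_num
  mono := by
    intro x hx y hy hxy
    have hx' : (x : ℝ) ≤ 1 / 2 := hx
    have hy' : (y : ℝ) ≤ 1 / 2 := hy
    have hxy' : (x : ℝ) < y := hxy
    show tent l x < tent l y
    rw [tent_left hx', tent_left hy']
    exact mul_lt_mul_of_pos_left hxy' K.lpos
  anti := by
    intro x hx y hy hxy
    have hx' : 1 / 2 ≤ (x : ℝ) := hx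
    have hy' : 1 / 2 ≤ (y : ℝ) := hy
    have hxy' : (x : ℝ) < y := hxy
    show tent l y < tent l x
    rw [tent_right hx', tent_right hy']
    exact mul_lt_mul_of_pos_left (by linarith) K.lpos

theorem orb_succ (n : ℕ) : (((tentI K)^[n + 1] hf : unitInterval) : ℝ) = X n := by
  rw [tentI_iter]
  exact K.Y_succ n

theorem regRec : RegRecurrent (tentI K) hf := by
  intro U hU
  obtain ⟨ε, hε, hsub⟩ := Metric.mem_nhds_iff.1 hU
  obtain ⟨J, hJ⟩ := K.near hε
  refine ⟨5 ^ J, Nat.one_le_pow _ _ (by norm_num), fun k => hsub ?_⟩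
  rw [Metric.mem_ball, Subtype.dist_eq, Real.dist_eq, tentI_iter, mul_comm]
  exact hJ J le_rfl k

theorem hf_mem : hf ∈ omegaSet (tentI K) hf := by
  rw [mem_omegaSet_iff]
  intro ε hε N
  obtain ⟨J, hJ⟩ := K.near hε
  refine ⟨5 ^ J * N, ?_, ?_⟩
  · have : 0 < 5 ^ J := by positivity
    nlinarith
  · rw [Subtype.dist_eq, Real.dist_eq, tentI_iter]
    exact hJ J le_rfl N

theorem infRec : InfRecurrent (tentI K) hf := by
  refine ⟨hf_mem K, fun n hn h => ?_⟩
  obtain ⟨k, rfl⟩ : ∃ k, n = k + 1 := ⟨n - 1, by omega⟩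
  have h1 : (((tentI K)^[k + 1] hf : unitInterval) : ℝ) = 1 / 2 := by rw [h]; rfl
  rw [orb_succ] at h1
  exact K.ne_half k h1

theorem orb_injective : Injective fun n : ℕ => (tentI K)^[n] hf := by
  -- if two points of the orbit coincide, the orbit is finite and stays away from the turning point
  have key : ∀ s t : ℕ, s < t → (tentI K)^[s] hf ≠ (tentI K)^[t] hf := by
    intro s t hst heq
    have hinf := (infRec K).2
    rcases Nat.eq_zero_or_pos s with h0 | h0
    · subst h0
      exact hinf t (by omega) heq.symm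
    set p := t - s with hp
    have hper : ∀ k, s ≤ k → (tentI K)^[k + p] hf = (tentI K)^[k] hf := by
      intro k hk
      obtain ⟨a, rfl⟩ : ∃ a, k = a + s := ⟨k - s, by omega⟩
      rw [show a + s + p = a + t by omega, iterate_add_apply _ a t, ← heq, ← iterate_add_apply]
    have hperm : ∀ r k, s ≤ k → (tentI K)^[k + p * r] hf = (tentI K)^[k] hf := by
      intro r
      induction r with
      | zero => intro k _; rfl
      | succ r ih =>
        intro k hk
        rw [show k + p * (r + 1) = (k + p * r) + p by ring, hper _ (by omega), ih k hk]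
    -- distance of the finite orbit from the turning point
    obtain ⟨δ, hδ, hmin⟩ : ∃ δ > 0, ∀ i ∈ Finset.range t, 1 ≤ i →
        δ ≤ dist ((tentI K)^[i] hf) hf := by
      have hfin : ∀ T : ℕ, ∃ δ > 0, ∀ i ∈ Finset.range T, 1 ≤ i →
          δ ≤ dist ((tentI K)^[i] hf) hf := by
        intro T
        induction T with
        | zero => exact ⟨1, one_pos, fun i hi => absurd (Finset.mem_range.1 hi) (Nat.not_lt_zero i)⟩
        | succ T ih =>
          obtain ⟨δ, hδ, h⟩ := ih
          rcases Nat.eq_zero_or_pos T with hT | hT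
          · subst hT
            refine ⟨1, one_pos, fun i hi hi1 => ?_⟩
            have := Finset.mem_range.1 hi
            omega
          · have hd : 0 < dist ((tentI K)^[T] hf) hf := dist_pos.2 (hinf T hT)
            refine ⟨min δ (dist ((tentI K)^[T] hf) hf), lt_min hδ hd, fun i hi hi1 => ?_⟩
            have hi' := Finset.mem_range.1 hi
            rcases Nat.lt_or_ge i T with hlt | hge
            · exact (min_le_left _ _).trans (h i (Finset.mem_range.2 hlt) hi1)
            · have : i = T := by omega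
              rw [this]
              exact min_le_right _ _
      exact hfin t
    obtain ⟨J, hJ⟩ := K.near hδ
    have hpow : 0 < 5 ^ J := by positivity
    have hsk : s ≤ 5 ^ J * s := by nlinarith
    have h1 := hJ J le_rfl s
    have h2 : (tentI K)^[5 ^ J * s] hf = (tentI K)^[s + (5 ^ J * s - s) % p] hf := by
      have := hperm ((5 ^ J * s - s) / p) (s + (5 ^ J * s - s) % p) (by omega)
      rw [← this]
      congr 1
      have := Nat.mod_add_div (5 ^ J * s - s) p
      omega
    have hmod := Nat.mod_lt (5 ^ J * s - s) (show 0 < p by omega)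
    have h3 := hmin (s + (5 ^ J * s - s) % p) (Finset.mem_range.2 (by omega)) (by omega)
    rw [← h2, Subtype.dist_eq, Real.dist_eq, tentI_iter] at h3
    exact absurd h1 (not_lt.2 h3)
  intro s t h
  by_contra hne
  rcases lt_or_gt_of_ne hne with h1 | h1
  · exact key s t h1 h
  · exact key t s h1 h.symm

theorem omega_approx {x : unitInterval} (hx : x ∈ omegaSet (tentI K) hf) {ε : ℝ} (hε : 0 < ε) :
    ∃ n, |X n - (x : ℝ)| < ε := by
  rw [mem_omegaSet_iff] at hx
  obtain ⟨n, hn, h⟩ := hx ε hε 1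
  obtain ⟨k, rfl⟩ : ∃ k, n = k + 1 := ⟨n - 1, by omega⟩
  rw [Subtype.dist_eq, Real.dist_eq, orb_succ] at h
  exact ⟨k, h⟩

theorem tent_lip (x y : ℝ) : |tent l x - tent l y| ≤ l * |x - y| := by
  have hl := K.lpos
  unfold tent
  rw [← mul_sub, abs_mul, abs_of_pos hl]
  refine mul_le_mul_of_nonneg_left ?_ hl.le
  have := abs_min_sub_min_le_max x (1 - x) y (1 - y)
  refine this.trans (max_le le_rfl ?_)
  rw [show 1 - x - (1 - y) = -(x - y) by ring, abs_neg]

theorem injOn_omega : InjOn (tentI K) (omegaSet (tentI K) hf) := by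
  -- it suffices to treat points on different sides
  have key : ∀ x ∈ omegaSet (tentI K) hf, ∀ y ∈ omegaSet (tentI K) hf, (x : ℝ) < 1 / 2 →
      1 / 2 < (y : ℝ) → tent l x ≠ tent l y := by
    intro x hx y hy hx2 hy2 heq
    obtain ⟨κ, hκ, hsep⟩ := K.separation (δ := (1 / 2 - (x : ℝ)) / 2) (by linarith)
    have hl := K.lpos
    have hl2 := K.hl2
    have hε : 0 < min (κ / 8) (min ((1 / 2 - (x : ℝ)) / 2) (((y : ℝ) - 1 / 2) / 2)) :=
      lt_min (by linarith) (lt_min (by linarith) (by linarith))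
    obtain ⟨n, hn⟩ := omega_approx K hx hε
    obtain ⟨m, hm⟩ := omega_approx K hy hε
    have n1 := lt_of_lt_of_le hn (min_le_left _ _)
    have n2 := lt_of_lt_of_le hn ((min_le_right _ _).trans (min_le_left _ _))
    have m1 := lt_of_lt_of_le hm (min_le_left _ _)
    have m2 := lt_of_lt_of_le hm ((min_le_right _ _).trans (min_le_right _ _))
    rw [abs_lt] at n2 m2
    have en : ee n = false := by rw [K.ee_eq_false_iff]; linarith [n2.2]
    have em : ee m = true := by rw [K.ee_eq_true_iff]; linarith [m2.1]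
    have h1 := hsep n m (by rw [en, em]; simp) (by
      rw [abs_of_neg (K.lt_half en |> fun h => by linarith)]
      linarith [n2.2])
    rw [← K.tent_X, ← K.tent_X] at h1
    have a1 := tent_lip K (X n) x
    have a2 := tent_lip K (X m) y
    have h2 : |tent l (X n) - tent l (X m)| ≤
        |tent l (X n) - tent l x| + |tent l (X m) - tent l y| := by
      calc |tent l (X n) - tent l (X m)| =
          |(tent l (X n) - tent l x) - (tent l (X m) - tent l y)| := by rw [heq]; ring_nf
        _ ≤ _ := abs_sub _ _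
    have b1 : l * |X n - x| ≤ 2 * (κ / 8) :=
      mul_le_mul hl2 n1.le (abs_nonneg _) (by norm_num)
    have b2 : l * |X m - y| ≤ 2 * (κ / 8) :=
      mul_le_mul hl2 m1.le (abs_nonneg _) (by norm_num)
    linarith
  intro x hx y hy h
  have h' : tent l x = tent l y := congrArg Subtype.val h
  apply Subtype.ext
  have hl := K.lpos
  rcases le_total (x : ℝ) (1 / 2) with h1 | h1 <;> rcases le_total (y : ℝ) (1 / 2) with h2 | h2
  · rw [tent_left h1, tent_left h2] at h'
    exact mul_left_cancel₀ hl.ne' h'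
  · rcases h1.lt_or_eq with g1 | g1
    · rcases h2.lt_or_eq with g2 | g2
      · exact absurd h' (key x hx y hy g1 g2)
      · rw [← g2] at h'
        rw [← g2]
        rw [tent_left h1, tent_left le_rfl] at h'
        exact mul_left_cancel₀ hl.ne' h'
    · rw [g1] at h' ⊢
      rw [tent_right le_rfl, tent_right h2] at h'
      have := mul_left_cancel₀ hl.ne' h'
      linarith
  · rcases h2.lt_or_eq with g2 | g2
    · rcases h1.lt_or_eq with g1 | g1
      · exact absurd h'.symm (key y hy x hx g2 g1)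
      · rw [← g1] at h'
        rw [← g1]
        rw [tent_left h2, tent_left le_rfl] at h'
        exact mul_left_cancel₀ hl.ne' h'
    · rw [g2] at h' ⊢
      rw [tent_right le_rfl, tent_right h1] at h'
      have := mul_left_cancel₀ hl.ne' h'
      linarith
  · rw [tent_right h1, tent_right h2] at h'
    have := mul_left_cancel₀ hl.ne' h'
    linarith

theorem not_conj : ¬ ConjToOdometer (tentI K) (omegaSet (tentI K) hf) := by
  have hm := omegaSet_mapsTo (tentI_cont K) hf
  have hmem : ∀ n, (tentI K)^[n] hf ∈ omegaSet (tentI K) hf := fun n => hm.iterate n (hf_mem K)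
  refine not_conj_of_separation (omegaSet_closed hf).isCompact hm (hmem 1) (ρ := 1 / 3)
    (by norm_num) fun η hη => ?_
  obtain ⟨n, k, h1, h2⟩ := K.not_equi hη
  refine ⟨(tentI K)^[n + 1] hf, hmem _, k, ?_, ?_⟩
  · rw [Subtype.dist_eq, Real.dist_eq, orb_succ, show (1 : ℕ) = 0 + 1 from rfl, orb_succ]
    exact h1
  · rw [← iterate_add_apply, ← iterate_add_apply, Subtype.dist_eq, Real.dist_eq,
      show k + (n + 1) = (n + k) + 1 by ring, orb_succ, orb_succ]
    exact h2

theorem strongPers : StrongPersRecurrent (tentI K) hf := by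
  intro ε hε
  obtain ⟨N, hN⟩ := K.persist (half_pos hε)
  refine ⟨N + 1, fun s hs G hG hc hinj => ?_⟩
  have key : ∀ x ∈ G, dist ((tentI K)^[s] x) ((tentI K)^[s] hf) < ε / 2 := by
    intro x hx
    rw [Subtype.dist_eq, Real.dist_eq, tentI_iter, tentI_iter]
    rcases lt_trichotomy (x : ℝ) (1 / 2) with h | h | h
    · refine hN s (by omega) x x.2.1 h ?_
      -- `[x, c)` is contained in `G`
      have hsub : ∀ z : unitInterval, x ≤ z → z < hf → z ∈ G := by
        intro z hxz hz
        obtain ⟨g, hg, hzg⟩ : ∃ g ∈ G, z < g := by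
          obtain ⟨g, hg1, hg2⟩ := mem_closure_iff_nhds.1 hc (Ioi z) (Ioi_mem_nhds hz)
          exact ⟨g, hg2, hg1⟩
        exact hG.out hx hg ⟨hxz, hzg.le⟩
      intro a ha b hb hab
      have ha1 : a ∈ Icc (0 : ℝ) 1 := ⟨x.2.1.trans ha.1, by linarith [ha.2]⟩
      have hb1 : b ∈ Icc (0 : ℝ) 1 := ⟨x.2.1.trans hb.1, by linarith [hb.2]⟩
      have e := hinj (hsub ⟨a, ha1⟩ ha.1 ha.2) (hsub ⟨b, hb1⟩ hb.1 hb.2)
        (Subtype.ext (by rw [tentI_iter, tentI_iter]; exact hab))
      exact congrArg Subtype.val e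
    · rw [h]
      show |(tent l)^[s] (1 / 2) - (tent l)^[s] (1 / 2)| < ε / 2
      rw [sub_self, abs_zero]
      exact half_pos hε
    · have hsym : ∀ z : ℝ, (tent l)^[s] (1 - z) = (tent l)^[s] z := by
        intro z
        obtain ⟨k, rfl⟩ : ∃ k, s = k + 1 := ⟨s - 1, by omega⟩
        rw [iterate_succ_apply, iterate_succ_apply, tent_symm]
      rw [← hsym (x : ℝ)]
      refine hN s (by omega) (1 - x) (by linarith [x.2.2]) (by linarith) ?_
      have hsub : ∀ z : unitInterval, z ≤ x → hf < z → z ∈ G := by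
        intro z hxz hz
        obtain ⟨g, hg, hzg⟩ : ∃ g ∈ G, g < z := by
          obtain ⟨g, hg1, hg2⟩ := mem_closure_iff_nhds.1 hc (Iio z) (Iio_mem_nhds hz)
          exact ⟨g, hg2, hg1⟩
        exact hG.out hg hx ⟨hzg.le, hxz⟩
      intro a ha b hb hab
      have ha1 : 1 - a ∈ Icc (0 : ℝ) 1 := ⟨by linarith [ha.2], by linarith [ha.1, x.2.2]⟩
      have hb1 : 1 - b ∈ Icc (0 : ℝ) 1 := ⟨by linarith [hb.2], by linarith [hb.1, x.2.2]⟩
      have e := hinj (hsub ⟨1 - a, ha1⟩ (show 1 - a ≤ (x : ℝ) by linarith [ha.1])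
        (show (1 / 2 : ℝ) < 1 - a by linarith [ha.2]))
        (hsub ⟨1 - b, hb1⟩ (show 1 - b ≤ (x : ℝ) by linarith [hb.1])
        (show (1 / 2 : ℝ) < 1 - b by linarith [hb.2]))
        (Subtype.ext (by
          rw [tentI_iter, tentI_iter]
          show (tent l)^[s] (1 - a) = (tent l)^[s] (1 - b)
          rw [hsym, hsym]
          exact hab))
      have e' : 1 - a = 1 - b := congrArg Subtype.val e
      linarith
  intro x hx y hy
  calc dist ((tentI K)^[s] x) ((tentI K)^[s] y) ≤
      dist ((tentI K)^[s] x) ((tentI K)^[s] hf) + dist ((tentI K)^[s] hf) ((tentI K)^[s] y) :=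
        dist_triangle _ _ _
    _ < ε / 2 + ε / 2 := by
        rw [dist_comm ((tentI K)^[s] hf)]
        exact add_lt_add (key x hx) (key y hy)
    _ = ε := by ring

end

/-- The main theorem. -/
theorem main : ∃ (f : unitInterval → unitInterval) (c : unitInterval), IsUnimodal f c ∧
    InfRecurrent f c ∧ RegRecurrent f c ∧ IsHomeoOn f (omegaSet f c) ∧
    OrbitsDenseIn f (omegaSet f c) ∧ ¬ ConjToOdometer f (omegaSet f c) ∧
    PersRecurrent f c ∧ StrongPersRecurrent f c := by
  obtain ⟨l, X, K⟩ := exists_KS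
  have hmin := orbitsDense_of_regRecurrent (tentI_cont K) (regRec K)
  exact ⟨tentI K, hf, tentI_unimodal K, infRec K, regRec K,
    isHomeoOn_omegaSet (tentI_cont K) ⟨hf, hf_mem K⟩ hmin (injOn_omega K), hmin, not_conj K,
    persRecurrent_of_injective (tentI_cont K) (hf_mem K) (orb_injective K), strongPers K⟩

end Pool.Agent.Lib.MP_34a220_an
end
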