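import Mathlib
import Pool.Agent.Lib.MP_34a220_an.Defs

section

/-!
# The substitution sequence `A → ABCCC`, `B → CABAC`, `C → ABCCA`
-/

namespace Pool.Agent.Lib.MP_34a220_an

/-- three letters -/
inductive L3 where
  | A : L3
  | B : L3
  | C : L3

/-- the substitution `A → ABCCC`, `B → CABAC`, `C → ABCCA`; `theta X j` is the letter number `j` -/
def theta : L3 → ℕ → L3
  | .A, 0 => .A
  | .A, 1 => .B
  | .A, _ => .C
  | .B, 0 => .C
  | .B, 1 => .A
  | .B, 2 => .B
  | .B, 3 => .A
  | .B, _ => .C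
  | .C, 0 => .A
  | .C, 1 => .B
  | .C, 2 => .C
  | .C, 3 => .C
  | .C, _ => .A

/-- the fixed point of the substitution starting with `A` -/
def NN (n : ℕ) : L3 := if n = 0 then .A else theta (NN (n / 5)) (n % 5)
termination_by n
decreasing_by exact Nat.div_lt_self (by omega) (by norm_num)

theorem NN_zero : NN 0 = .A := by
  rw [NN]
  simp

theorem NN_eq (n : ℕ) : NN n = theta (NN (n / 5)) (n % 5) := by
  by_cases h : n = 0
  · subst h
    rw [Nat.zero_div, NN_zero]
    rfl
  · rw [NN, if_neg h]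

theorem NN_five (q : ℕ) {j : ℕ} (hj : j < 5) : NN (5 * q + j) = theta (NN q) j := by
  rw [NN_eq, show (5 * q + j) / 5 = q by omega, show (5 * q + j) % 5 = j by omega]

theorem NN_1 : NN 1 = .B := by
  rw [NN_eq, show 1 / 5 = 0 by norm_num, show 1 % 5 = 1 by norm_num, NN_zero]; rfl
theorem NN_2 : NN 2 = .C := by
  rw [NN_eq, show 2 / 5 = 0 by norm_num, show 2 % 5 = 2 by norm_num, NN_zero]; rfl
theorem NN_3 : NN 3 = .C := by
  rw [NN_eq, show 3 / 5 = 0 by norm_num, show 3 % 5 = 3 by norm_num, NN_zero]; rfl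
theorem NN_4 : NN 4 = .C := by
  rw [NN_eq, show 4 / 5 = 0 by norm_num, show 4 % 5 = 4 by norm_num, NN_zero]; rfl
theorem NN_5 : NN 5 = .C := by
  rw [NN_eq, show 5 / 5 = 1 by norm_num, show 5 % 5 = 0 by norm_num, NN_1]; rfl
theorem NN_6 : NN 6 = .A := by
  rw [NN_eq, show 6 / 5 = 1 by norm_num, show 6 % 5 = 1 by norm_num, NN_1]; rfl
theorem NN_7 : NN 7 = .B := by
  rw [NN_eq, show 7 / 5 = 1 by norm_num, show 7 % 5 = 2 by norm_num, NN_1]; rfl
theorem NN_8 : NN 8 = .A := by
  rw [NN_eq, show 8 / 5 = 1 by norm_num, show 8 % 5 = 3 by norm_num, NN_1]; rfl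
theorem NN_9 : NN 9 = .C := by
  rw [NN_eq, show 9 / 5 = 1 by norm_num, show 9 % 5 = 4 by norm_num, NN_1]; rfl

/-- is the letter an `A`? -/
def isA : L3 → Bool
  | .A => true
  | .B => false
  | .C => false

/-- is the letter a `B`? -/
def isB : L3 → Bool
  | .A => false
  | .B => true
  | .C => false

/-- the binary sequence obtained by `A → 1`, `B → 0`, `C → 0` -/
def ee (n : ℕ) : Bool := isA (NN n)

theorem ee_five (q : ℕ) {j : ℕ} (hj : j < 5) : ee (5 * q + j) = isA (theta (NN q) j) := by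
  rw [ee, NN_five q hj]

/-- letters 0 to 4 -/
theorem th_cases {j : ℕ} (hj : j < 5) : j = 0 ∨ j = 1 ∨ j = 2 ∨ j = 3 ∨ j = 4 := by omega

theorem BB_free (q : ℕ) (h : NN q = .B) : NN (q + 1) ≠ .B := by
  obtain ⟨a, r, hr, rfl⟩ : ∃ a r, r < 5 ∧ q = 5 * a + r := ⟨q / 5, q % 5, by omega, by omega⟩
  rw [NN_five a hr] at h
  rcases th_cases hr with rfl | rfl | rfl | rfl | rfl
  · cases hX : NN a <;> rw [hX] at h <;> simp [theta] at h
  · rw [show 5 * a + 1 + 1 = 5 * a + 2 by ring, NN_five a (by norm_num)]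
    cases hX : NN a <;> rw [hX] at h <;> simp [theta] at h ⊢
  · rw [show 5 * a + 2 + 1 = 5 * a + 3 by ring, NN_five a (by norm_num)]
    cases hX : NN a <;> rw [hX] at h <;> simp [theta] at h ⊢
  · cases hX : NN a <;> rw [hX] at h <;> simp [theta] at h
  · cases hX : NN a <;> rw [hX] at h <;> simp [theta] at h

/-- equal letters have equal blocks -/
theorem block_eq {q q' : ℕ} (h : NN q = NN q') (j : ℕ) : ∀ r < 5 ^ j,
    NN (5 ^ j * q + r) = NN (5 ^ j * q' + r) := by
  induction j with
  | zero => intro r hr; simp at hr; subst hr; simpa using h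
  | succ j ih =>
    intro r hr
    have h1 : r / 5 < 5 ^ j := by
      rw [pow_succ] at hr
      omega
    have e1 : 5 ^ (j + 1) * q + r = 5 * (5 ^ j * q + r / 5) + r % 5 := by
      rw [pow_succ, mul_comm (5 ^ j) 5, mul_assoc]
      omega
    have e2 : 5 ^ (j + 1) * q' + r = 5 * (5 ^ j * q' + r / 5) + r % 5 := by
      rw [pow_succ, mul_comm (5 ^ j) 5, mul_assoc]
      omega
    rw [e1, e2, NN_five _ (Nat.mod_lt _ (by norm_num)), NN_five _ (Nat.mod_lt _ (by norm_num)),
      ih _ h1]

/-- blocks of the letters `A` and `C` differ at most in their last letter -/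
theorem flat_block {q q' : ℕ} (h : NN q ≠ .B) (h' : NN q' ≠ .B) (j : ℕ) :
    (∀ r, r + 1 < 5 ^ j → NN (5 ^ j * q + r) = NN (5 ^ j * q' + r)) ∧
    (∀ r, r + 1 = 5 ^ j → NN (5 ^ j * q + r) ≠ .B ∧ NN (5 ^ j * q' + r) ≠ .B ∧
      (NN q ≠ NN q' → NN (5 ^ j * q + r) ≠ NN (5 ^ j * q' + r))) := by
  induction j with
  | zero =>
    refine ⟨fun r hr => by simp at hr, fun r hr => ?_⟩
    simp at hr
    subst hr
    simp only [pow_zero, one_mul, add_zero]
    exact ⟨h, h', fun hh => hh⟩
  | succ j ih =>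
    obtain ⟨ih1, ih2⟩ := ih
    have hp : 0 < 5 ^ j := by positivity
    have e1 : ∀ q r, 5 ^ (j + 1) * q + r = 5 * (5 ^ j * q + r / 5) + r % 5 := by
      intro q r
      rw [pow_succ, mul_comm (5 ^ j) 5, mul_assoc]
      omega
    constructor
    · intro r hr
      rw [e1 q r, e1 q' r, NN_five _ (Nat.mod_lt _ (by norm_num)),
        NN_five _ (Nat.mod_lt _ (by norm_num))]
      rw [pow_succ] at hr
      by_cases hc : r / 5 + 1 < 5 ^ j
      · rw [ih1 _ hc]
      · have hr5 : r / 5 + 1 = 5 ^ j := by omega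
        have hr4 : r % 5 < 4 := by omega
        obtain ⟨g1, g2, -⟩ := ih2 _ hr5
        generalize NN (5 ^ j * q + r / 5) = X at *
        generalize NN (5 ^ j * q' + r / 5) = Y at *
        have : r % 5 = 0 ∨ r % 5 = 1 ∨ r % 5 = 2 ∨ r % 5 = 3 := by omega
        rcases this with h5 | h5 | h5 | h5 <;> rw [h5] <;> cases X <;> cases Y <;>
          simp_all [theta]
    · intro r hr
      rw [e1 q r, e1 q' r, NN_five _ (Nat.mod_lt _ (by norm_num)),
        NN_five _ (Nat.mod_lt _ (by norm_num))]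
      rw [pow_succ] at hr
      have hr5 : r / 5 + 1 = 5 ^ j := by omega
      have hr4 : r % 5 = 4 := by omega
      obtain ⟨g1, g2, g3⟩ := ih2 _ hr5
      rw [hr4]
      generalize NN (5 ^ j * q + r / 5) = X at *
      generalize NN (5 ^ j * q' + r / 5) = Y at *
      cases X <;> cases Y <;> simp_all [theta]

/-- all blocks begin alike -/
theorem pre_block (j q r : ℕ) (hr : r + 1 < 5 ^ j) : NN (5 ^ (j + 1) * q + r) = NN r := by
  have h1 : NN (5 * q) ≠ .B := by
    have := NN_five q (j := 0) (by norm_num)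
    rw [add_zero] at this
    rw [this]
    cases NN q <;> simp [theta]
  have h2 : NN 0 ≠ .B := by rw [NN_zero]; simp
  have := (flat_block h1 h2 j).1 r hr
  rw [mul_zero, zero_add] at this
  rw [← this, pow_succ, mul_assoc]

/-- all blocks end alike, up to the last letter -/
theorem suf_block (j q r : ℕ) (hr : r + 1 < 5 ^ j) :
    NN (5 ^ (j + 1) * q + 4 * 5 ^ j + r) = NN r := by
  have h1 : NN (5 * q + 4) ≠ .B := by
    rw [NN_five q (j := 4) (by norm_num)]
    cases NN q <;> simp [theta]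
  have h2 : NN 0 ≠ .B := by rw [NN_zero]; simp
  have := (flat_block h1 h2 j).1 r hr
  rw [mul_zero, zero_add] at this
  rw [← this]
  congr 1
  ring

/-- a prefix-like comparison: if the letters from `T` on agree with the letters from `0` on, `u`
times, and the next two letters are not `B`, then the blocks agree up to one place -/
theorem cut_block {T u : ℕ} (h : ∀ i < u, NN (T + i) = NN i) (h1 : NN (T + u) ≠ .B)
    (h2 : NN u ≠ .B) (j k : ℕ) (hk : k + 1 < 5 ^ j * (u + 1)) : NN (5 ^ j * T + k) = NN k := by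
  have hp : 0 < 5 ^ j := by positivity
  have hdm := Nat.div_add_mod k (5 ^ j)
  have hr := Nat.mod_lt k hp
  set i := k / 5 ^ j with hi
  set r := k % 5 ^ j with hr'
  have hiu : i ≤ u := by
    by_contra hcon
    have : 5 ^ j * (u + 1) ≤ 5 ^ j * i := Nat.mul_le_mul_left _ (by omega)
    omega
  have e1 : 5 ^ j * T + k = 5 ^ j * (T + i) + r := by rw [← hdm]; ring
  have e2 : k = 5 ^ j * i + r := hdm.symm
  rw [e1]
  conv_rhs => rw [e2]
  rcases Nat.lt_or_eq_of_le hiu with hlt | heq
  · exact block_eq (h i hlt) j r hr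
  · rw [heq]
    refine (flat_block h1 h2 j).1 r ?_
    have : 5 ^ j * (u + 1) = 5 ^ j * i + 5 ^ j := by rw [heq]; ring
    omega

/-- parity of the number of ones among the first `n` symbols -/
def PP : ℕ → Bool
  | 0 => false
  | n + 1 => xor (PP n) (ee n)

theorem PP_five (n : ℕ) : PP (5 * n) = PP n := by
  induction n with
  | zero => rfl
  | succ n ih =>
    have : 5 * (n + 1) = 5 * n + 4 + 1 := by ring
    rw [this]
    have e0 := ee_five n (j := 0) (by norm_num)
    have e1 := ee_five n (j := 1) (by norm_num)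
    have e2 := ee_five n (j := 2) (by norm_num)
    have e3 := ee_five n (j := 3) (by norm_num)
    have e4 := ee_five n (j := 4) (by norm_num)
    rw [add_zero] at e0
    show xor (PP (5 * n + 4)) (ee (5 * n + 4)) = xor (PP n) (ee n)
    show xor (xor (PP (5 * n + 3)) (ee (5 * n + 3))) (ee (5 * n + 4)) = xor (PP n) (ee n)
    show xor (xor (xor (PP (5 * n + 2)) (ee (5 * n + 2))) (ee (5 * n + 3))) (ee (5 * n + 4)) =
      xor (PP n) (ee n)
    show xor (xor (xor (xor (PP (5 * n + 1)) (ee (5 * n + 1))) (ee (5 * n + 2)))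
      (ee (5 * n + 3))) (ee (5 * n + 4)) = xor (PP n) (ee n)
    show xor (xor (xor (xor (xor (PP (5 * n)) (ee (5 * n))) (ee (5 * n + 1))) (ee (5 * n + 2)))
      (ee (5 * n + 3))) (ee (5 * n + 4)) = xor (PP n) (ee n)
    rw [e0, e1, e2, e3, e4, ih, ee]
    cases NN n <;> cases PP n <;> rfl

theorem PP_pow (j n : ℕ) : PP (5 ^ j * n) = PP n := by
  induction j with
  | zero => simp
  | succ j ih => rw [pow_succ, mul_comm (5 ^ j) 5, mul_assoc, PP_five, ih]

end Pool.Agent.Lib.MP_34a220_an
end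

section

/-!
# Recognizability and special words of the binary sequence
-/

namespace Pool.Agent.Lib.MP_34a220_an

theorem ee_0 {q : ℕ} : ee (5 * q) = isA (theta (NN q) 0) := by
  have := ee_five q (j := 0) (by norm_num)
  rwa [add_zero] at this

theorem letter1 (X Y : L3) (r : ℕ) (hr : r < 5) (hX : X ≠ .B) (hY : Y ≠ .B)
    (h : theta X r ≠ theta Y r) : r = 4 := by
  rcases th_cases hr with rfl | rfl | rfl | rfl | rfl <;> cases X <;> cases Y <;>
    simp_all [theta]

theorem letter2 (X Y : L3) (r : ℕ) (hr : r < 5) (hX : X ≠ .B) (hY : Y ≠ .B)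
    (h : isA (theta X r) ≠ isA (theta Y r)) : r = 4 := by
  rcases th_cases hr with rfl | rfl | rfl | rfl | rfl <;> cases X <;> cases Y <;>
    simp_all [theta, isA]

theorem letter3 (X Y : L3) (r : ℕ) (hr : r < 5) (h : theta X r ≠ theta Y r)
    (h3 : r ≤ 2 → theta X 3 = theta Y 3) : theta X r ≠ .B ∧ theta Y r ≠ .B := by
  rcases th_cases hr with rfl | rfl | rfl | rfl | rfl <;> cases X <;> cases Y <;>
    simp_all [theta]

theorem letter4 (X Y : L3) (h1 : theta X 1 = theta Y 1) (h4 : theta X 4 = theta Y 4) : X = Y := by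
  cases X <;> cases Y <;> simp_all [theta]

theorem letter5 (X Y : L3) (h1 : isA (theta X 1) = isA (theta Y 1))
    (h4 : isA (theta X 4) = isA (theta Y 4)) : X = Y := by
  cases X <;> cases Y <;> simp_all [theta, isA]

theorem letter6 (X : L3) (h : X ≠ .B) : theta X 4 ≠ .B := by
  cases X <;> simp_all [theta]

/-- the word `1000` occurs only at multiples of `5` -/
theorem pattern {n : ℕ} (h0 : ee n = true) (h1 : ee (n + 1) = false) (h2 : ee (n + 2) = false)
    (h3 : ee (n + 3) = false) : n % 5 = 0 := by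
  obtain ⟨q, r, hr, rfl⟩ : ∃ q r, r < 5 ∧ n = 5 * q + r := ⟨n / 5, n % 5, by omega, by omega⟩
  have hBB := BB_free q
  rcases th_cases hr with rfl | rfl | rfl | rfl | rfl
  · omega
  · exfalso
    rw [ee_five q (by norm_num)] at h0
    rw [show 5 * q + 1 + 2 = 5 * q + 3 by ring, ee_five q (by norm_num)] at h2
    cases hX : NN q <;> rw [hX] at h0 h2 <;> simp [theta, isA] at h0 h2
  · exfalso
    rw [ee_five q (by norm_num)] at h0
    cases hX : NN q <;> rw [hX] at h0 <;> simp [theta, isA] at h0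
  · exfalso
    rw [ee_five q (by norm_num)] at h0
    rw [show 5 * q + 3 + 2 = 5 * (q + 1) by ring, ee_0] at h2
    cases hX : NN q <;> rw [hX] at h0 hBB <;> simp [theta, isA] at h0 hBB
    cases hY : NN (q + 1) <;> rw [hY] at h2 hBB <;> simp [theta, isA] at h2 hBB
  · exfalso
    rw [ee_five q (by norm_num)] at h0
    rw [show 5 * q + 4 + 1 = 5 * (q + 1) by ring, ee_0] at h1
    rw [show 5 * q + 4 + 2 = 5 * (q + 1) + 1 by ring, ee_five (q + 1) (by norm_num)] at h2
    cases hX : NN q <;> rw [hX] at h0 <;> simp [theta, isA] at h0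
    cases hY : NN (q + 1) <;> rw [hY] at h1 h2 <;> simp [theta, isA] at h1 h2

/-- the word `1000` occurs at the beginning of every block that is not the `B` block -/
theorem pattern_mk {q : ℕ} (h : NN q ≠ .B) : ee (5 * q) = true ∧ ee (5 * q + 1) = false ∧
    ee (5 * q + 2) = false ∧ ee (5 * q + 3) = false := by
  rw [ee_0, ee_five q (by norm_num), ee_five q (by norm_num), ee_five q (by norm_num)]
  cases hX : NN q <;> simp_all [theta, isA]

theorem mod_five {n m : ℕ} (h : ∀ k < 14, ee (n + k) = ee (m + k)) : n % 5 = m % 5 := by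
  obtain ⟨q, hq1, hq2, hq3⟩ : ∃ q, n ≤ 5 * q ∧ 5 * q ≤ n + 10 ∧ NN q ≠ .B := by
    by_cases hB : NN (n / 5 + 1) = .B
    · exact ⟨n / 5 + 1 + 1, by omega, by omega, BB_free _ hB⟩
    · exact ⟨n / 5 + 1, by omega, by omega, hB⟩
  obtain ⟨p0, p1, p2, p3⟩ := pattern_mk hq3
  obtain ⟨p, hp⟩ : ∃ p, 5 * q = n + p := ⟨5 * q - n, by omega⟩
  have hpl : p ≤ 10 := by omega
  have k0 := h p (by omega)
  have k1 := h (p + 1) (by omega)
  have k2 := h (p + 2) (by omega)
  have k3 := h (p + 3) (by omega)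
  rw [← add_assoc, ← hp] at k1 k2 k3
  rw [← hp] at k0
  have := pattern (n := m + p) (by rw [← k0, p0]) (by rw [add_assoc, ← k1, p1])
    (by rw [add_assoc, ← k2, p2]) (by rw [add_assoc, ← k3, p3])
  omega

theorem decode {q q' : ℕ} (h : ∀ j < 5, ee (5 * q + j) = ee (5 * q' + j)) : NN q = NN q' := by
  have h1 := h 1 (by norm_num)
  have h4 := h 4 (by norm_num)
  rw [ee_five q (by norm_num), ee_five q' (by norm_num)] at h1 h4
  exact letter5 _ _ h1 h4

/-- going up one level -/
theorem up {n m L : ℕ} (h : ∀ k < 5 * (L + 1) + 14, ee (n + k) = ee (m + k)) :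
    n % 5 = m % 5 ∧ ∀ i < L, NN (n / 5 + 1 + i) = NN (m / 5 + 1 + i) := by
  have h5 := mod_five (n := n) (m := m) (fun k hk => h k (by omega))
  refine ⟨h5, fun i hi => decode fun j hj => ?_⟩
  have := h (5 * (1 + i) + j - n % 5) (by omega)
  have e1 : n + (5 * (1 + i) + j - n % 5) = 5 * (n / 5 + 1 + i) + j := by omega
  have e2 : m + (5 * (1 + i) + j - n % 5) = 5 * (m / 5 + 1 + i) + j := by omega
  rwa [e1, e2] at this

theorem recog (J : ℕ) : ∃ L, ∀ n m, (∀ k < L, ee (n + k) = ee (m + k)) → n ≡ m [MOD 5 ^ J] := by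
  induction J with
  | zero => exact ⟨0, fun n m _ => by rw [pow_zero]; exact Nat.modEq_one⟩
  | succ J ih =>
    obtain ⟨L, hL⟩ := ih
    refine ⟨5 * (L + 1) + 14, fun n m h => ?_⟩
    obtain ⟨h5, hN⟩ := up h
    have h1 := hL (n / 5 + 1) (m / 5 + 1) (fun k hk => by rw [ee, ee, hN k hk])
    have h2 : n / 5 ≡ m / 5 [MOD 5 ^ J] := Nat.ModEq.add_right_cancel' 1 h1
    have h3 : 5 * (n / 5) ≡ 5 * (m / 5) [MOD 5 * 5 ^ J] := Nat.ModEq.mul_left' 5 h2
    have h4 := h3.add_right (n % 5)
    rw [pow_succ, mul_comm]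
    rw [show 5 * (n / 5) + n % 5 = n by omega] at h4
    rw [show 5 * (m / 5) + n % 5 = m by omega] at h4
    exact h4

/-- comparison with the sequence itself -/
theorem recog_zero (J : ℕ) : ∃ L, ∀ n, (∀ k < L, ee (n + k) = ee k) → 5 ^ J ∣ n := by
  obtain ⟨L, hL⟩ := recog J
  refine ⟨L, fun n h => ?_⟩
  have := hL n 0 (fun k hk => by rw [zero_add]; exact h k hk)
  exact (Nat.modEq_zero_iff_dvd).1 this

theorem modEq_up {n m J r : ℕ} (h : 5 * n + r ≡ 5 * m + r [MOD 5 ^ (J + 1)]) :
    n ≡ m [MOD 5 ^ J] := by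
  have h1 : 5 * n ≡ 5 * m [MOD 5 ^ (J + 1)] := Nat.ModEq.add_right_cancel' r h
  rw [pow_succ, mul_comm (5 ^ J) 5] at h1
  exact Nat.ModEq.mul_left_cancel' (by norm_num) h1

/-- Two different letters at places congruent modulo `5 ^ J` and followed by the same letters: the
next place is divisible by `5 ^ (J - 1)`. -/
theorem special_N (J : ℕ) : ∃ W, ∀ n m, n ≡ m [MOD 5 ^ J] → NN n ≠ NN m →
    (∀ k, 1 ≤ k → k ≤ W → NN (n + k) = NN (m + k)) →
    (1 ≤ J → NN n ≠ .B ∧ NN m ≠ .B ∧ 5 ^ (J - 1) ∣ n + 1) := by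
  induction J with
  | zero => exact ⟨0, fun n m _ _ _ h => by omega⟩
  | succ J ih =>
    obtain ⟨W, hW⟩ := ih
    refine ⟨5 * W + 5, fun n m hnm hne hag _ => ?_⟩
    obtain ⟨q, r, hr, rfl⟩ : ∃ q r, r < 5 ∧ n = 5 * q + r := ⟨n / 5, n % 5, by omega, by omega⟩
    have hmr : m % 5 = r := by
      have := hnm.of_mul_left (n := 5) (m := 5 ^ J) (a := 5 * q + r) (b := m)
      have h2 : 5 * q + r ≡ m [MOD 5] := by
        refine hnm.of_dvd ?_
        exact dvd_pow_self 5 (by omega)
      unfold Nat.ModEq at h2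
      omega
    obtain ⟨q', rfl⟩ : ∃ q', m = 5 * q' + r := ⟨m / 5, by omega⟩
    have hq : q ≡ q' [MOD 5 ^ J] := modEq_up hnm
    rw [NN_five q hr, NN_five q' hr] at hne
    have hqne : NN q ≠ NN q' := by
      intro h
      rw [h] at hne
      exact hne rfl
    have hqag : ∀ k, 1 ≤ k → k ≤ W → NN (q + k) = NN (q' + k) := by
      intro k hk1 hk2
      -- all five letters of the block agree
      have key : ∀ j < 5, theta (NN (q + k)) j = theta (NN (q' + k)) j := by
        intro j hj
        have := hag (5 * k + j - r) (by omega) (by omega)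
        rw [show 5 * q + r + (5 * k + j - r) = 5 * (q + k) + j by omega,
          show 5 * q' + r + (5 * k + j - r) = 5 * (q' + k) + j by omega, NN_five _ hj,
          NN_five _ hj] at this
        exact this
      exact letter4 _ _ (key 1 (by norm_num)) (key 4 (by norm_num))
    rw [NN_five q hr, NN_five q' hr, Nat.add_sub_cancel]
    rcases Nat.eq_zero_or_pos J with hJ | hJ
    · subst hJ
      -- level one
      have h3 : r ≤ 2 → theta (NN q) 3 = theta (NN q') 3 := by
        intro hr2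
        have := hag (3 - r) (by omega) (by omega)
        rw [show 5 * q + r + (3 - r) = 5 * q + 3 by omega,
          show 5 * q' + r + (3 - r) = 5 * q' + 3 by omega, NN_five _ (by norm_num),
          NN_five _ (by norm_num)] at this
        exact this
      obtain ⟨g1, g2⟩ := letter3 _ _ r hr hne h3
      exact ⟨g1, g2, by simp⟩
    · obtain ⟨g1, g2, g3⟩ := hW q q' hq hqne hqag hJ
      have hr4 : r = 4 := letter1 _ _ r hr g1 g2 hne
      subst hr4
      refine ⟨letter6 _ g1, letter6 _ g2, ?_⟩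
      · obtain ⟨t, ht⟩ := g3
        refine ⟨t, ?_⟩
        have : 5 * q + 4 + 1 = 5 * (q + 1) := by ring
        rw [this, ht]
        obtain ⟨J', rfl⟩ : ∃ J', J = J' + 1 := ⟨J - 1, by omega⟩
        rw [Nat.add_sub_cancel, pow_succ]
        ring

/-- Two different symbols followed by the same long word: the next place is divisible by a high
power of `5`. -/
theorem special_e (J : ℕ) : ∃ L, ∀ n m, ee n ≠ ee m →
    (∀ k, 1 ≤ k → k ≤ L → ee (n + k) = ee (m + k)) → 5 ^ J ∣ n + 1 := by
  obtain ⟨W, hW⟩ := special_N (J + 1)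
  obtain ⟨L, hL⟩ := recog (J + 2)
  refine ⟨L + (5 * (W + 2) + 14), fun n m hne hag => ?_⟩
  have h1 : n + 1 ≡ m + 1 [MOD 5 ^ (J + 2)] := by
    refine hL _ _ fun k hk => ?_
    have := hag (k + 1) (by omega) (by omega)
    rwa [show n + 1 + k = n + (k + 1) by ring, show m + 1 + k = m + (k + 1) by ring]
  have h2 : n ≡ m [MOD 5 ^ (J + 2)] := Nat.ModEq.add_right_cancel' 1 h1
  obtain ⟨q, r, hr, rfl⟩ : ∃ q r, r < 5 ∧ n = 5 * q + r := ⟨n / 5, n % 5, by omega, by omega⟩
  have hmr : m % 5 = r := by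
    have h3 : 5 * q + r ≡ m [MOD 5] := h2.of_dvd (dvd_pow_self 5 (by omega))
    unfold Nat.ModEq at h3
    omega
  obtain ⟨q', rfl⟩ : ∃ q', m = 5 * q' + r := ⟨m / 5, by omega⟩
  have hq : q ≡ q' [MOD 5 ^ (J + 1)] := modEq_up h2
  rw [ee_five q hr, ee_five q' hr] at hne
  have hqne : NN q ≠ NN q' := by
    intro h
    rw [h] at hne
    exact hne rfl
  have hqag : ∀ k, 1 ≤ k → k ≤ W → NN (q + k) = NN (q' + k) := by
    intro k hk1 hk2
    refine decode fun j hj => ?_
    have := hag (5 * k + j - r) (by omega) (by omega)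
    rwa [show 5 * q + r + (5 * k + j - r) = 5 * (q + k) + j by omega,
      show 5 * q' + r + (5 * k + j - r) = 5 * (q' + k) + j by omega] at this
  obtain ⟨g1, g2, g3⟩ := hW q q' hq hqne hqag (by omega)
  have hr4 : r = 4 := letter2 _ _ r hr g1 g2 hne
  subst hr4
  rw [Nat.add_sub_cancel] at g3
  have : 5 * q + 4 + 1 = (q + 1) * 5 := by ring
  rw [this]
  exact Dvd.dvd.mul_right g3 5

theorem left_aux {j q i : ℕ} (hq : 0 < q) (hi2 : 2 ≤ i) (hij : i ≤ 5 ^ j) :
    ee (5 ^ (j + 1) * q - i) = ee (5 ^ j - i) := by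
  obtain ⟨t, rfl⟩ : ∃ t, q = t + 1 := ⟨q - 1, by omega⟩
  have e1 : 5 ^ (j + 1) * (t + 1) = 5 ^ (j + 1) * t + 4 * 5 ^ j + 5 ^ j := by
    rw [pow_succ]
    ring
  have e2 : 5 ^ (j + 1) * (t + 1) - i = 5 ^ (j + 1) * t + 4 * 5 ^ j + (5 ^ j - i) := by omega
  rw [e2, ee, ee, suf_block j t (5 ^ j - i) (by omega)]

/-- before a positive multiple of `5 ^ (j + 1)` there is always the same word, except for its last
symbol -/
theorem left_unique {j a b i : ℕ} (ha : 5 ^ (j + 1) ∣ a) (hb : 5 ^ (j + 1) ∣ b) (ha0 : 0 < a)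
    (hb0 : 0 < b) (hi2 : 2 ≤ i) (hij : i ≤ 5 ^ j) : ee (a - i) = ee (b - i) := by
  obtain ⟨q, rfl⟩ := ha
  obtain ⟨q', rfl⟩ := hb
  have hq : 0 < q := by
    rcases Nat.eq_zero_or_pos q with h | h
    · rw [h] at ha0; simp at ha0
    · exact h
  have hq' : 0 < q' := by
    rcases Nat.eq_zero_or_pos q' with h | h
    · rw [h] at hb0; simp at hb0
    · exact h
  rw [left_aux hq hi2 hij, left_aux hq' hi2 hij]

end Pool.Agent.Lib.MP_34a220_an
end

section

/-!
# The binary sequence is greater than its shifts, and is not eventually of period-like shape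
-/

namespace Pool.Agent.Lib.MP_34a220_an

/-- the order `B < C < A` of the letters -/
def rk : L3 → ℕ
  | .A => 2
  | .B => 0
  | .C => 1

theorem rk_inj {X Y : L3} (h : rk X = rk Y) : X = Y := by
  cases X <;> cases Y <;> simp_all [rk]

theorem PP_five_four (d : ℕ) (h : NN d ≠ .B) : PP (5 * d + 4) = !PP d := by
  have e0 := ee_five d (j := 0) (by norm_num)
  have e1 := ee_five d (j := 1) (by norm_num)
  have e2 := ee_five d (j := 2) (by norm_num)
  have e3 := ee_five d (j := 3) (by norm_num)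
  rw [add_zero] at e0
  show xor (xor (xor (xor (PP (5 * d)) (ee (5 * d))) (ee (5 * d + 1))) (ee (5 * d + 2)))
      (ee (5 * d + 3)) = !PP d
  rw [e0, e1, e2, e3, PP_five]
  cases hX : NN d
  · cases PP d <;> rfl
  · exact absurd hX h
  · cases PP d <;> rfl

theorem ee_of0 : ee 0 = true := by rw [ee, NN_zero]; rfl
theorem ee_of1 : ee 1 = false := by rw [ee, NN_1]; rfl
theorem ee_of2 : ee 2 = false := by rw [ee, NN_2]; rfl
theorem PP_of0 : PP 0 = false := rfl
theorem PP_of1 : PP 1 = true := by show xor false (ee 0) = true; rw [ee_of0]; rfl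
theorem PP_of2 : PP 2 = true := by show xor (PP 1) (ee 1) = true; rw [PP_of1, ee_of1]; rfl

theorem max_N (n : ℕ) : 1 ≤ n → ∃ d, (∀ k < d, NN (n + k) = NN k) ∧
    ((PP d = false ∧ rk (NN (n + d)) < rk (NN d)) ∨
      (PP d = true ∧ rk (NN d) < rk (NN (n + d)))) := by
  induction n using Nat.strong_induction_on with
  | _ n ih =>
  intro hn
  by_cases hA : NN n = .A
  swap
  · refine ⟨0, fun k hk => absurd hk (Nat.not_lt_zero k), Or.inl ⟨rfl, ?_⟩⟩
    rw [add_zero, NN_zero]
    cases hX : NN n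
    · exact absurd hX hA
    · simp [rk]
    · simp [rk]
  obtain ⟨q, r, hr, rfl⟩ : ∃ q r, r < 5 ∧ n = 5 * q + r := ⟨n / 5, n % 5, by omega, by omega⟩
  have hA' := hA
  rw [NN_five q hr] at hA'
  rcases th_cases hr with rfl | rfl | rfl | rfl | rfl
  · -- multiple of five
    obtain ⟨d, hd, hor⟩ := ih q (by omega) (by omega)
    have hag : ∀ k < 5 * d, NN (5 * q + 0 + k) = NN k := by
      intro k hk
      have e1 : 5 * q + 0 + k = 5 * (q + k / 5) + k % 5 := by omega
      rw [e1, NN_five _ (Nat.mod_lt _ (by norm_num)), hd _ (by omega), ← NN_eq]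
    have hne : NN (q + d) ≠ NN d := by
      rcases hor with ⟨-, h⟩ | ⟨-, h⟩
      · intro heq; rw [heq] at h; exact lt_irrefl _ h
      · intro heq; rw [heq] at h; exact lt_irrefl _ h
    by_cases hB : NN (q + d) = .B ∨ NN d = .B
    · refine ⟨5 * d, hag, ?_⟩
      rw [PP_five, show 5 * q + 0 + 5 * d = 5 * (q + d) + 0 by ring,
        show 5 * d = 5 * d + 0 by ring, NN_five _ (by norm_num), NN_five _ (by norm_num)]
      cases hX : NN (q + d) <;> cases hY : NN d <;> rw [hX, hY] at hor hB hne <;>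
        simp_all [rk, theta]
    · push Not at hB
      refine ⟨5 * d + 4, ?_, ?_⟩
      · intro k hk
        rcases Nat.lt_or_ge k (5 * d) with h | h
        · exact hag k h
        · obtain ⟨i, rfl⟩ : ∃ i, k = 5 * d + i := ⟨k - 5 * d, by omega⟩
          rw [show 5 * q + 0 + (5 * d + i) = 5 * (q + d) + i by ring, NN_five _ (by omega),
            NN_five _ (by omega)]
          have : i = 0 ∨ i = 1 ∨ i = 2 ∨ i = 3 := by omega
          obtain ⟨g1, g2⟩ := hB
          rcases this with rfl | rfl | rfl | rfl <;> cases hX : NN (q + d) <;>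
            cases hY : NN d <;> simp_all [theta]
      · rw [PP_five_four d hB.2, show 5 * q + 0 + (5 * d + 4) = 5 * (q + d) + 4 by ring,
          NN_five _ (by norm_num), NN_five _ (by norm_num)]
        obtain ⟨g1, g2⟩ := hB
        cases hX : NN (q + d) <;> cases hY : NN d <;> cases hP : PP d <;>
          simp_all [theta, rk]
  · -- r = 1, block B
    have hX : NN q = .B := by
      cases hX : NN q <;> rw [hX] at hA' <;> simp [theta] at hA' ⊢
    refine ⟨2, ?_, Or.inr ⟨PP_of2, ?_⟩⟩
    · intro k hk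
      have : k = 0 ∨ k = 1 := by omega
      rcases this with rfl | rfl
      · rw [add_zero, hA, NN_zero]
      · rw [show 5 * q + 1 + 1 = 5 * q + 2 by ring, NN_five q (by norm_num), hX, NN_1]
        rfl
    · rw [show 5 * q + 1 + 2 = 5 * q + 3 by ring, NN_five q (by norm_num), hX, NN_2]
      simp [rk, theta]
  · exfalso
    cases hX : NN q <;> rw [hX] at hA' <;> simp [theta] at hA'
  · -- r = 3, block B
    have hX : NN q = .B := by
      cases hX : NN q <;> rw [hX] at hA' <;> simp [theta] at hA' ⊢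
    refine ⟨1, ?_, Or.inr ⟨PP_of1, ?_⟩⟩
    · intro k hk
      have : k = 0 := by omega
      subst this
      rw [add_zero, hA, NN_zero]
    · rw [show 5 * q + 3 + 1 = 5 * q + 4 by ring, NN_five q (by norm_num), hX, NN_1]
      simp [rk, theta]
  · -- r = 4
    refine ⟨1, ?_, Or.inr ⟨PP_of1, ?_⟩⟩
    · intro k hk
      have : k = 0 := by omega
      subst this
      rw [add_zero, hA, NN_zero]
    · rw [show 5 * q + 4 + 1 = 5 * (q + 1) + 0 by ring, NN_five (q + 1) (by norm_num), NN_1]
      cases NN (q + 1) <;> simp [rk, theta]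

/-- The sequence is greater than all its shifts in the parity-lexicographic order. -/
theorem max_e (n : ℕ) (hn : 1 ≤ n) : ∃ d, (∀ k < d, ee (n + k) = ee k) ∧
    ((PP d = false ∧ ee (n + d) = false ∧ ee d = true) ∨
      (PP d = true ∧ ee (n + d) = true ∧ ee d = false)) := by
  by_cases hA : ee n = true
  swap
  · refine ⟨0, fun k hk => absurd hk (Nat.not_lt_zero k), Or.inl ⟨rfl, ?_, ee_of0⟩⟩
    rw [add_zero]
    simpa using hA
  obtain ⟨q, r, hr, rfl⟩ : ∃ q r, r < 5 ∧ n = 5 * q + r := ⟨n / 5, n % 5, by omega, by omega⟩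
  have hA' := hA
  rw [ee_five q hr] at hA'
  rcases th_cases hr with rfl | rfl | rfl | rfl | rfl
  · obtain ⟨d, hd, hor⟩ := max_N q (by omega)
    have hag : ∀ k < 5 * d, ee (5 * q + 0 + k) = ee k := by
      intro k hk
      have e1 : 5 * q + 0 + k = 5 * (q + k / 5) + k % 5 := by omega
      rw [ee, e1, NN_five _ (Nat.mod_lt _ (by norm_num)), hd _ (by omega), ← NN_eq, ee]
    by_cases hB : NN (q + d) = .B ∨ NN d = .B
    · refine ⟨5 * d, hag, ?_⟩
      rw [PP_five, show 5 * q + 0 + 5 * d = 5 * (q + d) + 0 by ring,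
        show 5 * d = 5 * d + 0 by ring, ee_five _ (by norm_num), ee_five _ (by norm_num)]
      cases hX : NN (q + d) <;> cases hY : NN d <;> rw [hX, hY] at hor hB <;>
        simp_all [rk, theta, isA]
    · push Not at hB
      refine ⟨5 * d + 4, ?_, ?_⟩
      · intro k hk
        rcases Nat.lt_or_ge k (5 * d) with h | h
        · exact hag k h
        · obtain ⟨i, rfl⟩ : ∃ i, k = 5 * d + i := ⟨k - 5 * d, by omega⟩
          rw [show 5 * q + 0 + (5 * d + i) = 5 * (q + d) + i by ring, ee_five _ (by omega),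
            ee_five _ (by omega)]
          have : i = 0 ∨ i = 1 ∨ i = 2 ∨ i = 3 := by omega
          obtain ⟨g1, g2⟩ := hB
          rcases this with rfl | rfl | rfl | rfl <;> cases hX : NN (q + d) <;>
            cases hY : NN d <;> simp_all [theta, isA]
      · rw [PP_five_four d hB.2, show 5 * q + 0 + (5 * d + 4) = 5 * (q + d) + 4 by ring,
          ee_five _ (by norm_num), ee_five _ (by norm_num)]
        obtain ⟨g1, g2⟩ := hB
        cases hX : NN (q + d) <;> cases hY : NN d <;> cases hP : PP d <;>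
          simp_all [theta, rk, isA]
  · have hX : NN q = .B := by
      cases hX : NN q <;> rw [hX] at hA' <;> simp [theta, isA] at hA' ⊢
    refine ⟨2, ?_, Or.inr ⟨PP_of2, ?_, ee_of2⟩⟩
    · intro k hk
      have : k = 0 ∨ k = 1 := by omega
      rcases this with rfl | rfl
      · rw [add_zero, hA, ee_of0]
      · rw [show 5 * q + 1 + 1 = 5 * q + 2 by ring, ee_five q (by norm_num), hX, ee_of1]
        rfl
    · rw [show 5 * q + 1 + 2 = 5 * q + 3 by ring, ee_five q (by norm_num), hX]
      rfl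
  · exfalso
    cases hX : NN q <;> rw [hX] at hA' <;> simp [theta, isA] at hA'
  · have hX : NN q = .B := by
      cases hX : NN q <;> rw [hX] at hA' <;> simp [theta, isA] at hA' ⊢
    have hY := BB_free q hX
    refine ⟨2, ?_, Or.inr ⟨PP_of2, ?_, ee_of2⟩⟩
    · intro k hk
      have : k = 0 ∨ k = 1 := by omega
      rcases this with rfl | rfl
      · rw [add_zero, hA, ee_of0]
      · rw [show 5 * q + 3 + 1 = 5 * q + 4 by ring, ee_five q (by norm_num), hX, ee_of1]
        rfl
    · rw [show 5 * q + 3 + 2 = 5 * (q + 1) + 0 by ring, ee_five (q + 1) (by norm_num)]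
      cases hZ : NN (q + 1)
      · rfl
      · exact absurd hZ hY
      · rfl
  · cases hZ : NN (q + 1)
    · refine ⟨1, ?_, Or.inr ⟨PP_of1, ?_, ee_of1⟩⟩
      · intro k hk
        have : k = 0 := by omega
        subst this
        rw [add_zero, hA, ee_of0]
      · rw [show 5 * q + 4 + 1 = 5 * (q + 1) + 0 by ring, ee_five (q + 1) (by norm_num), hZ]
        rfl
    · refine ⟨2, ?_, Or.inr ⟨PP_of2, ?_, ee_of2⟩⟩
      · intro k hk
        have : k = 0 ∨ k = 1 := by omega
        rcases this with rfl | rfl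
        · rw [add_zero, hA, ee_of0]
        · rw [show 5 * q + 4 + 1 = 5 * (q + 1) + 0 by ring, ee_five (q + 1) (by norm_num), hZ,
            ee_of1]
          rfl
      · rw [show 5 * q + 4 + 2 = 5 * (q + 1) + 1 by ring, ee_five (q + 1) (by norm_num), hZ]
        rfl
    · refine ⟨1, ?_, Or.inr ⟨PP_of1, ?_, ee_of1⟩⟩
      · intro k hk
        have : k = 0 := by omega
        subst this
        rw [add_zero, hA, ee_of0]
      · rw [show 5 * q + 4 + 1 = 5 * (q + 1) + 0 by ring, ee_five (q + 1) (by norm_num), hZ]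
        rfl

theorem ee_ne_of_flat {n m : ℕ} (h1 : NN n ≠ .B) (h2 : NN m ≠ .B) (h : NN n ≠ NN m) :
    ee n ≠ ee m := by
  rw [ee, ee]
  cases hX : NN n <;> cases hY : NN m <;> simp_all [isA]

/-- The sequence is not constant on all residue classes other than `-1`, for any modulus. -/
theorem aper (n₀ : ℕ) (hn : 2 ≤ n₀) : ∃ k k' : ℕ, n₀ ∣ k' - k ∧ k ≤ k' ∧ ee k ≠ ee k' ∧
    ¬ n₀ ∣ k + 1 := by
  obtain ⟨a, m, hm, rfl⟩ := Nat.exists_eq_pow_mul_and_not_dvd (n := n₀) (by omega) 5 (by norm_num)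
  have hp : 0 < 5 ^ a := by positivity
  rcases Nat.lt_or_ge 1 m with h1 | h1
  · -- there is `i'` divisible by `m`, congruent to `2` modulo `25`
    have hco : Nat.Coprime m 25 := by
      have : Nat.Coprime 5 m := (Nat.Prime.coprime_iff_not_dvd (by norm_num)).2 hm
      have := this.symm.pow_right 2
      simpa using this
    obtain ⟨i, hi0, hi2⟩ := Nat.chineseRemainder hco 0 2
    have him : m ∣ i := (Nat.modEq_zero_iff_dvd).1 hi0
    have hi : i % 25 = 2 := hi2
    have hNi : NN i = .C := by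
      obtain ⟨u, rfl⟩ : ∃ u, i = 5 * (5 * u) + 2 := ⟨i / 25, by omega⟩
      rw [NN_five (5 * u) (by norm_num), show 5 * u = 5 * u + 0 by ring, NN_five u (by norm_num)]
      cases NN u <;> rfl
    have hfl := (flat_block (q := 0) (q' := i) (by rw [NN_zero]; simp) (by rw [hNi]; simp) a).2
      (5 ^ a - 1) (by omega)
    obtain ⟨g1, g2, g3⟩ := hfl
    have g3' := g3 (by rw [NN_zero, hNi]; simp)
    rw [mul_zero, zero_add] at g1 g3'
    refine ⟨5 ^ a - 1, 5 ^ a * i + (5 ^ a - 1), ?_, by omega, ee_ne_of_flat g1 g2 g3', ?_⟩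
    · rw [Nat.add_sub_cancel]
      exact Nat.mul_dvd_mul_left _ him
    · rw [Nat.sub_add_cancel hp]
      intro hdvd
      have := Nat.le_of_dvd hp hdvd
      nlinarith
  · -- `m = 1`
    have hm1 : m = 1 := by
      rcases Nat.eq_zero_or_pos m with h0 | h0
      · rw [h0] at hm; simp at hm
      · omega
    subst hm1
    rw [mul_one] at hn ⊢
    obtain ⟨b, rfl⟩ : ∃ b, a = b + 1 := ⟨a - 1, by
      rcases Nat.eq_zero_or_pos a with h0 | h0
      · rw [h0] at hn; simp at hn
      · omega⟩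
    have hpb : 0 < 5 ^ b := by positivity
    have hfl := (flat_block (q := 0) (q' := 5) (by rw [NN_zero]; simp) (by rw [NN_5]; simp) b).2
      (5 ^ b - 1) (by omega)
    obtain ⟨g1, g2, g3⟩ := hfl
    have g3' := g3 (by rw [NN_zero, NN_5]; simp)
    rw [mul_zero, zero_add] at g1 g3'
    refine ⟨5 ^ b - 1, 5 ^ b * 5 + (5 ^ b - 1), ?_, by omega, ee_ne_of_flat g1 g2 g3', ?_⟩
    · rw [Nat.add_sub_cancel, pow_succ]
    · rw [Nat.sub_add_cancel hpb]
      intro hdvd
      have := Nat.le_of_dvd hpb hdvd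
      rw [pow_succ] at this
      omega

end Pool.Agent.Lib.MP_34a220_an
end

section

/-!
# Some general topological dynamics
-/

namespace Pool.Agent.Lib.MP_34a220_an

open Filter Topology Set Function

section General

variable {X : Type} [MetricSpace X] {f : X → X}

theorem mem_omegaSet_iff {x y : X} : y ∈ omegaSet f x ↔
    ∀ ε > 0, ∀ N : ℕ, ∃ n ≥ N, dist (f^[n] x) y < ε := by
  unfold omegaSet
  rw [mem_ofPred_eq, mapClusterPt_iff_frequently]
  constructor
  · intro h ε hε N
    have := h _ (Metric.ball_mem_nhds y hε)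
    rw [frequently_atTop] at this
    obtain ⟨n, hn, hn'⟩ := this N
    exact ⟨n, hn, hn'⟩
  · intro h s hs
    obtain ⟨ε, hε, hsub⟩ := Metric.mem_nhds_iff.1 hs
    rw [frequently_atTop]
    intro N
    obtain ⟨n, hn, hn'⟩ := h ε hε N
    exact ⟨n, hn, hsub hn'⟩

theorem omegaSet_closed (x : X) : IsClosed (omegaSet f x) := by
  apply isClosed_of_closure_subset
  intro y hy
  rw [mem_omegaSet_iff]
  intro ε hε N
  obtain ⟨z, hz, hyz⟩ := Metric.mem_closure_iff.1 hy (ε / 2) (half_pos hε)
  rw [mem_omegaSet_iff] at hz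
  obtain ⟨n, hn, hn'⟩ := hz (ε / 2) (half_pos hε) N
  refine ⟨n, hn, ?_⟩
  calc dist (f^[n] x) y ≤ dist (f^[n] x) z + dist z y := dist_triangle _ _ _
    _ < ε / 2 + ε / 2 := by
      rw [dist_comm z y]
      exact add_lt_add hn' hyz
    _ = ε := by ring

theorem omegaSet_mapsTo (hf : Continuous f) (x : X) : MapsTo f (omegaSet f x) (omegaSet f x) := by
  intro y hy
  rw [mem_omegaSet_iff] at hy ⊢
  intro ε hε N
  obtain ⟨δ, hδ, h⟩ := Metric.continuousAt_iff.1 (hf.continuousAt (x := y)) ε hε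
  obtain ⟨n, hn, hn'⟩ := hy δ hδ N
  refine ⟨n + 1, by omega, ?_⟩
  rw [iterate_succ_apply']
  exact h hn'

theorem omegaSet_subset_closure {x : X} {Z : Set X} (hZ : IsClosed Z) (h : ∀ n, f^[n] x ∈ Z) :
    omegaSet f x ⊆ Z := by
  intro y hy
  rw [mem_omegaSet_iff] at hy
  rw [← hZ.closure_eq, Metric.mem_closure_iff]
  intro ε hε
  obtain ⟨n, -, hn⟩ := hy ε hε 0
  exact ⟨f^[n] x, h n, by rwa [dist_comm]⟩

/-- the limit set of a regularly recurrent point is minimal -/
theorem orbitsDense_of_regRecurrent (hf : Continuous f) {c : X} (hc : RegRecurrent f c) :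
    OrbitsDenseIn f (omegaSet f c) := by
  intro y hy
  have hcy : c ∈ closure (range fun n => f^[n] y) := by
    rw [Metric.mem_closure_iff]
    intro ε hε
    obtain ⟨N, hN, hk⟩ := hc _ (Metric.ball_mem_nhds c (half_pos hε))
    have hcont : ∀ᶠ z in 𝓝 y, ∀ i ∈ Finset.range (N + 1), dist (f^[i] z) (f^[i] y) < ε / 2 := by
      rw [Filter.eventually_all_finset]
      intro i _
      have := (hf.iterate i).continuousAt (x := y)
      exact this (Metric.ball_mem_nhds _ (half_pos hε))
    obtain ⟨δ, hδ, hδ'⟩ := Metric.eventually_nhds_iff.1 hcont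
    rw [mem_omegaSet_iff] at hy
    obtain ⟨n, -, hn⟩ := hy δ hδ 0
    have h1 := hδ' hn (N - n % N) (Finset.mem_range.2 (by omega))
    have hmod := Nat.mod_lt n (show 0 < N by omega)
    have e1 : (n / N + 1) * N = (N - n % N) + n := by
      have := Nat.div_add_mod n N
      rw [add_mul, one_mul, mul_comm]
      omega
    have h2 := hk (n / N + 1)
    rw [e1, iterate_add_apply, Metric.mem_ball] at h2
    refine ⟨_, ⟨N - n % N, rfl⟩, ?_⟩
    calc dist c (f^[N - n % N] y) ≤ dist c (f^[N - n % N] (f^[n] c)) +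
        dist (f^[N - n % N] (f^[n] c)) (f^[N - n % N] y) := dist_triangle _ _ _
      _ < ε / 2 + ε / 2 := by
        rw [dist_comm c]
        exact add_lt_add h2 h1
      _ = ε := by ring
  refine omegaSet_subset_closure isClosed_closure fun n => ?_
  have hm : MapsTo f^[n] (range fun n => f^[n] y) (range fun n => f^[n] y) := by
    rintro _ ⟨k, rfl⟩
    exact ⟨n + k, iterate_add_apply f n k y⟩
  exact hm.closure (hf.iterate n) hcy

theorem image_omegaSet [CompactSpace X] (hf : Continuous f) {c : X} (hne : (omegaSet f c).Nonempty)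
    (hmin : OrbitsDenseIn f (omegaSet f c)) : omegaSet f c ⊆ f '' omegaSet f c := by
  obtain ⟨y, hy⟩ := hne
  have hm := omegaSet_mapsTo hf c
  have hcl : IsClosed (f '' omegaSet f c) :=
    ((omegaSet_closed c).isCompact.image hf).isClosed
  refine (hmin (f y) (hm hy)).trans ?_
  refine closure_minimal ?_ hcl
  rintro _ ⟨n, rfl⟩
  refine ⟨f^[n] y, hm.iterate n hy, ?_⟩
  simp only
  rw [← iterate_succ_apply' f n y, ← iterate_succ_apply f n y]

theorem isHomeoOn_omegaSet [CompactSpace X] (hf : Continuous f) {c : X}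
    (hne : (omegaSet f c).Nonempty) (hmin : OrbitsDenseIn f (omegaSet f c))
    (hinj : InjOn f (omegaSet f c)) : IsHomeoOn f (omegaSet f c) := by
  have hm := omegaSet_mapsTo hf c
  haveI : CompactSpace (omegaSet f c) := isCompact_iff_compactSpace.1 (omegaSet_closed c).isCompact
  let g : omegaSet f c → omegaSet f c := fun x => ⟨f x, hm x.2⟩
  have hg : Continuous g := (hf.comp continuous_subtype_val).subtype_mk _
  have hbij : Bijective g := by
    constructor
    · intro x y h
      exact Subtype.ext (hinj x.2 y.2 (congrArg Subtype.val h))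
    · intro y
      obtain ⟨x, hx, hxy⟩ := image_omegaSet hf hne hmin y.2
      exact ⟨⟨x, hx⟩, Subtype.ext hxy⟩
  refine ⟨Continuous.homeoOfEquivCompactToT2 (f := Equiv.ofBijective g hbij) hg, fun x => rfl⟩

/-- If orbits of nearby points of `K` separate by a fixed amount, then `f` restricted to the
compact set `K` is not conjugate to an odometer. -/
theorem not_conj_of_separation {K : Set X} (hK : IsCompact K) (hm : MapsTo f K K) {a : X}
    (ha : a ∈ K) {ρ : ℝ} (hρ : 0 < ρ) (h : ∀ η > 0, ∃ b ∈ K, ∃ k, dist b a < η ∧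
      ρ ≤ dist (f^[k] b) (f^[k] a)) : ¬ ConjToOdometer f K := by
  rintro ⟨m, -, -, -, φ, hφ⟩
  haveI : CompactSpace K := isCompact_iff_compactSpace.1 hK
  choose b hbK k hba hsep using fun j : ℕ => h (1 / ((j : ℝ) + 1)) (by positivity)
  have hm' : ∀ n, MapsTo f^[n] K K := fun n => hm.iterate n
  -- iterates
  have hit : ∀ n (x : K) i, (φ ⟨f^[n] x, hm' n x.2⟩).1 i = (φ x).1 i + n := by
    intro n
    induction n with
    | zero => intro x i; simp
    | succ n ih =>
      intro x i
      rw [hφ ⟨f^[n] x, hm' n x.2⟩ ⟨f^[n + 1] x, hm' (n + 1) x.2⟩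
        (iterate_succ_apply' f n (x : X)) i, ih x i]
      push_cast
      ring
  have hbt : Tendsto (fun j => (⟨b j, hbK j⟩ : K)) atTop (𝓝 ⟨a, ha⟩) := by
    rw [tendsto_subtype_rng, tendsto_iff_dist_tendsto_zero]
    exact squeeze_zero (fun _ => dist_nonneg) (fun j => (hba j).le)
      tendsto_one_div_add_atTop_nhds_zero_nat
  have hci : ∀ i, Continuous fun x : K => (φ x).1 i := fun i =>
    (continuous_apply i).comp (continuous_subtype_val.comp φ.continuous)
  obtain ⟨⟨u, v⟩, -, ψ, hψ, hlim⟩ := isCompact_univ.tendsto_subseq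
    (x := fun j => ((⟨f^[k j] (b j), hm' (k j) (hbK j)⟩ : K), (⟨f^[k j] a, hm' (k j) ha⟩ : K)))
    (fun j => mem_univ _)
  have huv : ∀ i, (φ u).1 i = (φ v).1 i := by
    intro i
    have h1 : ∀ᶠ j in atTop, (φ ⟨b j, hbK j⟩).1 i = (φ ⟨a, ha⟩).1 i := by
      have := ((hci i).tendsto (⟨a, ha⟩ : K)).comp hbt
      rw [nhds_discrete] at this
      exact tendsto_pure.1 this
    have h2 : ∀ᶠ j in atTop, (φ ⟨f^[k j] (b j), hm' (k j) (hbK j)⟩).1 i =
        (φ ⟨f^[k j] a, hm' (k j) ha⟩).1 i := by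
      filter_upwards [h1] with j hj
      rw [hit (k j) ⟨b j, hbK j⟩ i, hit (k j) ⟨a, ha⟩ i, hj]
    have hcl : IsClosed {p : K × K | (φ p.1).1 i = (φ p.2).1 i} :=
      isClosed_eq ((hci i).comp continuous_fst) ((hci i).comp continuous_snd)
    exact hcl.mem_of_tendsto hlim (hψ.tendsto_atTop.eventually h2)
  have huv' : u = v := φ.injective (Subtype.ext (funext huv))
  have hd : ρ ≤ dist u v := by
    have hdist : Tendsto (fun j => dist (⟨f^[k (ψ j)] (b (ψ j)), hm' (k (ψ j)) (hbK (ψ j))⟩ : K)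
        (⟨f^[k (ψ j)] a, hm' (k (ψ j)) ha⟩ : K)) atTop (𝓝 (dist u v)) := by
      have h1 : Tendsto (fun j => (⟨f^[k (ψ j)] (b (ψ j)), hm' (k (ψ j)) (hbK (ψ j))⟩ : K)) atTop
          (𝓝 u) := (continuous_fst.tendsto (u, v)).comp hlim
      have h2 : Tendsto (fun j => (⟨f^[k (ψ j)] a, hm' (k (ψ j)) ha⟩ : K)) atTop (𝓝 v) :=
        (continuous_snd.tendsto (u, v)).comp hlim
      exact h1.dist h2
    exact ge_of_tendsto' hdist fun j => hsep (ψ j)
  rw [huv', dist_self] at hd
  linarith

end General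

section Chains

variable {f : unitInterval → unitInterval} {c : unitInterval}

theorem chain_end (hf : Continuous f) {U : Set unitInterval} {s : ℕ} (hs : 1 ≤ s)
    {G : ℕ → Set unitInterval} (hG : PullbackChain f U s G) (hmon : ∀ i < s, c ∉ G i)
    (hfr : c ∈ frontier (G 0)) : f^[s] c ∈ closure U ∧ f^[s] c ∉ U := by
  have key : ∀ i ≤ s, f^[i] c ∈ closure (G i) ∧ f^[i] c ∉ G i := by
    intro i
    induction i with
    | zero => intro _; exact ⟨frontier_subset_closure hfr, hmon 0 (by omega)⟩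
    | succ i ih =>
      intro hi
      obtain ⟨h1, h2⟩ := ih (by omega)
      obtain ⟨x, hx, hGi⟩ := hG.2 i (by omega)
      have hsub : G i ⊆ f ⁻¹' G (i + 1) := by
        rw [hGi]
        exact connectedComponentIn_subset _ _
      rw [iterate_succ_apply']
      constructor
      · have : MapsTo f (G i) (G (i + 1)) := hsub
        exact this.closure hf h1
      · intro hcon
        apply h2
        have hpre : IsPreconnected (G i) := by
          rw [hGi]
          exact isPreconnected_connectedComponentIn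
        have hins : IsPreconnected (insert (f^[i] c) (G i)) :=
          hpre.subset_closure (subset_insert _ _) (insert_subset h1 subset_closure)
        have hxG : x ∈ G i := by
          rw [hGi]
          exact mem_connectedComponentIn hx
        have := hins.subset_connectedComponentIn (mem_insert_of_mem _ hxG)
          (insert_subset hcon hsub)
        rw [← hGi] at this
        exact this (mem_insert _ _)
  have := key s le_rfl
  rw [hG.1] at this
  exact this

theorem end_point {U : Set unitInterval} (hU : U.OrdConnected) {p : unitInterval}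
    (h1 : p ∈ closure U) (h2 : p ∉ U) : IsGLB U p ∨ IsLUB U p := by
  by_cases hlb : p ∈ lowerBounds U
  · left
    refine ⟨hlb, fun q hq => ?_⟩
    have : closure U ⊆ Ici q := closure_minimal (fun u hu => hq hu) isClosed_Ici
    exact this h1
  · right
    have hex : ∃ a ∈ U, a < p := by
      by_contra hno
      push Not at hno
      exact hlb fun a ha => hno a ha
    obtain ⟨a, ha, hap⟩ := hex
    have hub : p ∈ upperBounds U := by
      intro b hb
      by_contra hcon
      rw [not_le] at hcon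
      exact h2 (hU.out ha hb ⟨hap.le, hcon.le⟩)
    refine ⟨hub, fun q hq => ?_⟩
    have : closure U ⊆ Iic q := closure_minimal (fun u hu => hq hu) isClosed_Iic
    exact this h1

theorem persRecurrent_of_injective (hf : Continuous f) (hc : c ∈ omegaSet f c)
    (hinj : Injective fun n : ℕ => f^[n] c) : PersRecurrent f c := by
  refine ⟨hc, fun y _ U hU => ?_⟩
  have hsub : {s : ℕ | ∃ G, PullbackChain f U s G ∧ (∀ i < s, c ∉ G i) ∧ c ∈ frontier (G 0)} ⊆
      {0} ∪ ({s : ℕ | IsGLB U (f^[s] c)} ∪ {s : ℕ | IsLUB U (f^[s] c)}) := by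
    rintro s ⟨G, hG, hmon, hfr⟩
    rcases Nat.eq_zero_or_pos s with h0 | h0
    · left; exact h0
    · right
      obtain ⟨h1, h2⟩ := chain_end hf h0 hG hmon hfr
      exact end_point hU.1 h1 h2
  refine Set.Finite.subset ?_ hsub
  refine (finite_singleton 0).union (Set.Finite.union ?_ ?_)
  · apply Set.Subsingleton.finite
    intro s hs t ht
    exact hinj (IsGLB.unique hs ht)
  · apply Set.Subsingleton.finite
    intro s hs t ht
    exact hinj (IsLUB.unique hs ht)

end Chains

end Pool.Agent.Lib.MP_34a220_an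
end
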